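import Pool.Agent.Lib.MP_aa40d3_nt.OK.Loc

/-! The units that satisfy all analytic relations of the group of exponentials. -/

open Matrix NormedSpace Filter Topology LieSubalgebra LieAlgebra
open scoped Matrix.Norms.Operator

namespace Pool.Agent.GR.OK

open OP OG

attribute [local instance 100] LieRing.ofAssociativeRing

variable {r : ℕ} {W : Submodule ℂ (Mt r)}

/-- `Ψ` is differentiable along every differentiable family of operators. -/
def An (Ψ : ℂ → Module.End ℂ (Mt r) → ℂ) : Prop :=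
  ∀ (d : ℂ → ℂ) (T : ℂ → Module.End ℂ (Mt r)) (x : ℂ), DifferentiableAt ℂ d x →
    (∀ a, DifferentiableAt ℂ (fun y => T y a) x) → DifferentiableAt ℂ (fun y => Ψ (d y) (T y)) x

/-- A homogeneous analytic relation of the group of exponentials. -/
def Rel (W : Submodule ℂ (Mt r)) (Ψ : ℂ → Module.End ℂ (Mt r) → ℂ) : Prop :=
  An Ψ ∧ ∀ u ∈ GW W, ∀ d ≠ 0, Ψ d (d • AdU u) = 0

/-- All relations hold at `x`. -/
def Cl0 (W : Submodule ℂ (Mt r)) (x : (Mt r)ˣ) : Prop := ∀ Ψ, Rel W Ψ → Ψ 1 (AdU x) = 0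

theorem lin_diff {V : Type} [NormedAddCommGroup V] [NormedSpace ℂ V] (f : Mt r →ₗ[ℂ] V)
    {b : ℂ → Mt r} {x : ℂ} (h : DifferentiableAt ℂ b x) : DifferentiableAt ℂ (fun y => f (b y)) x :=
  f.toContinuousLinearMap.differentiableAt.comp x h

theorem Cl0.smul {x : (Mt r)ˣ} (h : Cl0 W x) {Ψ : ℂ → Module.End ℂ (Mt r) → ℂ} (hΨ : Rel W Ψ)
    {d : ℂ} (hd : d ≠ 0) : Ψ d (d • AdU x) = 0 := by
  have := h (fun e T => Ψ (d * e) (d • T)) ⟨fun e T y he hT => hΨ.1 _ _ y (he.const_mul d)
    fun a => (hT a).const_smul d, fun u hu e he => by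
      simpa only [smul_smul] using hΨ.2 u hu _ (mul_ne_zero hd he)⟩
  rwa [mul_one] at this

theorem Cl0.mul {x y : (Mt r)ˣ} (hx : Cl0 W x) (hy : Cl0 W y) : Cl0 W (x * y) := fun Ψ hΨ => by
  rw [map_mul]
  refine hx (fun e T => Ψ e (T * AdU y)) ⟨fun e T z he hT => hΨ.1 _ _ z he fun a => hT _,
    fun u hu e he => ?_⟩
  have := hy.smul (Ψ := fun e T => Ψ e (AdU u * T)) ⟨fun e T z he hT => hΨ.1 _ _ z he fun a =>
    lin_diff (AdU u) (hT a), fun v hv e he => by
      simpa only [mul_smul_comm, map_mul] using hΨ.2 _ (mul_mem hu hv) e he⟩ he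
  rwa [mul_smul_comm, ← smul_mul_assoc] at this

theorem Cl0.of_mem {x : (Mt r)ˣ} (h : x ∈ GW W) : Cl0 W x := fun Ψ hΨ => by
  simpa only [one_smul] using hΨ.2 x h 1 one_ne_zero

/-- The closure of the group of exponentials. -/
def Cl (W : Submodule ℂ (Mt r)) : Subgroup (Mt r)ˣ where
  carrier := {x | Cl0 W x ∧ Cl0 W x⁻¹}
  mul_mem' := fun {x y} hx hy => ⟨hx.1.mul hy.1, _root_.mul_inv_rev x y ▸ hy.2.mul hx.2⟩
  one_mem' := ⟨.of_mem (one_mem _), .of_mem (inv_mem (one_mem _))⟩
  inv_mem' := fun {x} hx => ⟨hx.2, (inv_inv x).symm ▸ hx.1⟩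

theorem app_diff {T : ℂ → Module.End ℂ (Mt r)} {b : ℂ → Mt r} {x : ℂ}
    (hT : ∀ a, DifferentiableAt ℂ (fun y => T y a) x) (h : DifferentiableAt ℂ b x) :
    DifferentiableAt ℂ (fun y => T y (b y)) x := by
  rw [show (fun y => T y (b y)) = fun y => ∑ i, ∑ j, b y i j • T y (single i j 1) from
    funext fun y => by
      conv_lhs => rw [matrix_eq_sum_single (b y)]
      simp only [map_sum, ← map_smul, smul_single, smul_eq_mul, mul_one]]
  exact DifferentiableAt.fun_sum fun i _ => DifferentiableAt.fun_sum fun j _ =>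
    (lin_diff (entryLinearMap ℂ ℂ i j) h).smul (hT _)

theorem exp_ker (X : Mt r) (n : ℕ) : ∀ z, (adL X ^ n) z = 0 → ((AdU (eU X) - 1) ^ n) z = 0 := by
  induction n with
  | zero => exact fun z hz => hz
  | succ n ih =>
    intro z hz
    have h := (LinearMap.ker (adL X ^ n)).closed_of_finiteDimensional.mem_of_tendsto
      ((hasSum_nat_add_iff' 1).2 (hasSum_conj X z)) (Eventually.of_forall fun s =>
        Submodule.sum_mem _ fun k _ => Submodule.smul_mem _ _ (by
          rw [LinearMap.mem_ker, ← Module.End.mul_apply, ← pow_add, show n + (k + 1) = k + (n + 1)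
            by omega, pow_add, Module.End.mul_apply, hz, map_zero]))
    rw [pow_succ, Module.End.mul_apply]
    refine ih _ ?_
    simp only [Finset.sum_range_one, Nat.factorial_zero, Nat.cast_one, inv_one, one_smul] at h
    rw [LinearMap.sub_apply, AdU_apply]
    exact h

theorem big_cl [NeZero r] {L : LieSubalgebra ℂ (Mt r)} (hL : LieW L.toSubmodule) :
    Big L (Cl L.toSubmodule) := by
  refine ⟨fun x hx => ⟨.of_mem hx, .of_mem (inv_mem hx)⟩, fun x hx z hz => ?_, fun x hx => ?_⟩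
  · rw [← AdU_apply]
    refine (Subspace.forall_mem_dualAnnihilator_apply_eq_zero_iff L.toSubmodule _).1 fun φ hφ => ?_
    refine hx.1 (fun _ T => φ (T z)) ⟨fun e T y _ hT => lin_diff φ (hT z), fun u hu e _ => ?_⟩
    exact (Submodule.mem_dualAnnihilator φ).1 hφ _
      (L.smul_mem e (AdU_apply u z ▸ GW_conj hL.lie hu hz))
  let f := fun (d : ℂ) (T : Module.End ℂ (Mt r)) =>
    ((T - d • 1) ^ Module.finrank ℂ (Mt r)) ∘ₗ L.toSubmodule.subtype
  have h1 : ∀ m (a : Fin m → L.toSubmodule) (φ : Mt r →ₗ[ℂ] Fin m → ℂ),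
      An fun d T => (of fun i => φ (f d T (a i))).det := fun m a φ d T y hd hT => by
    have k : ∀ (k : ℕ) z, DifferentiableAt ℂ (fun y => ((T y - d y • 1) ^ k) z) y := fun k => by
      induction k with
      | zero => exact fun z => differentiableAt_const z
      | succ k ih =>
        intro z
        simp only [pow_succ, Module.End.mul_apply]
        exact app_diff ih ((hT z).sub (hd.smul_const z))
    simp only [det_apply', of_apply]
    exact DifferentiableAt.fun_sum fun σ _ => (DifferentiableAt.fun_finsetProd fun i _ =>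
      lin_diff (LinearMap.proj i ∘ₗ φ) (k _ _)).const_mul _
  have h2 : rank ℂ L ≤ Module.finrank ℂ (LinearMap.ker (f 1 (AdU x))) := by
    refine (rk_iff _ _).2 fun m hm a φ => hx.1 _ ⟨h1 m a φ, fun u hu d hd => ?_⟩
    obtain ⟨γ, c1, c2, c3, c4⟩ := exists_curve hu
    have c5 : Differentiable ℂ fun s => (of fun i => φ (f d (d • AdU (γ s)) (a i))).det :=
      fun s => h1 m a φ (fun _ => d) _ s (differentiableAt_const d) fun z => by
        simp only [LinearMap.smul_apply, AdU_apply]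
        exact (((c1 s).fst.mul_const z).mul (c1 s).snd).const_smul d
    refine c3 ▸ (c5.differentiableOn.analyticOnNhd isOpen_univ
      ).eqOn_zero_of_preconnected_of_eventuallyEq_zero isPreconnected_univ (z₀ := 0) trivial ?_
        (x := 1) trivial
    filter_upwards [(c1.fst.continuous.tendsto' 0 1 (by rw [c2]; rfl)).eventually (loc hL)]
      with s hs
    obtain ⟨X, hX, e⟩ := hs _ rfl fun z hz => AdU_apply _ z ▸ GW_conj hL.lie (c4 s) hz
    refine (rk_iff _ _).1 ((rank_le_finrank_engel ℂ (⟨X, hX⟩ : L)).trans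
      (Submodule.finrank_mono (t := LinearMap.ker _) fun z hz => ?_)) m hm a φ
    obtain ⟨n, hn⟩ := (mem_engel_iff ℂ _ _).1 hz
    have k : ∀ (n : ℕ) (z : L), ((ad ℂ L ⟨X, hX⟩ ^ n) z).1 = (adL X ^ n) z.1 := fun n => by
      induction n with
      | zero => exact fun _ => rfl
      | succ n ih => exact fun z => by rw [pow_succ, pow_succ]; exact ih _
    have k2 := Module.End.ker_pow_le_ker_pow_finrank _ n (exp_ker X n z.1 (by rw [← k, hn]; rfl))
    change ((d • AdU (γ s) - d • (1 : Module.End ℂ (Mt r))) ^ Module.finrank ℂ (Mt r)) z.1 = 0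
    rw [← _root_.smul_sub d (AdU (γ s)) 1, _root_.smul_pow, LinearMap.smul_apply, e, k2, smul_zero]
  refine ⟨_, Submodule.map_subtype_le _ _, h2.trans_eq (Submodule.finrank_map_subtype_eq _ _).symm,
    ?_⟩
  rintro _ ⟨z, hz, rfl⟩
  exact ⟨_, by rw [← one_smul ℂ (1 : Module.End ℂ (Mt r))]; exact hz⟩

end Pool.Agent.GR.OK
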