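import Pool.Agent.Lib.MP_aa40d3_nt.OK.Jor

/-! The semisimple part of a unit that normalises the Lie algebra lies in the closure of its
orbit. -/

open Matrix NormedSpace
open scoped Matrix.Norms.Operator

namespace Pool.Agent.GR.OK

open OP OG NP

variable {r : ℕ} {W : Submodule ℂ (Mt r)}

theorem inv_keep {V : Type} [AddCommGroup V] [Module ℂ V] [FiniteDimensional ℂ V]
    {T T' : Module.End ℂ V} (h : T * T' = 1) {p : Submodule ℂ V} (hp : ∀ v ∈ p, T' v ∈ p) :
    ∀ v ∈ p, T v ∈ p := fun v hv => by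
  have h1 : ∀ w, T (T' w) = w := fun w => LinearMap.congr_fun h w
  obtain ⟨w, hw⟩ := LinearMap.surjective_of_injective (f := T'.restrict hp)
    (fun a b e => Subtype.ext (by rw [← h1 a, ← h1 b]; exact congrArg (fun y => T y.1) e)) ⟨v, hv⟩
  rw [← show T' w = v from congrArg Subtype.val hw, h1]
  exact w.2

theorem inv_ss {V : Type} [AddCommGroup V] [Module ℂ V] [FiniteDimensional ℂ V]
    {T T' : Module.End ℂ V} (h : T * T' = 1) (hT : T.IsSemisimple) : T'.IsSemisimple :=
  Module.End.isSemisimple_iff.2 fun p hp => by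
    obtain ⟨q, hq, hc⟩ := Module.End.isSemisimple_iff.1 hT p (inv_keep h hp)
    exact ⟨q, inv_keep (mul_eq_one_comm.1 h) hq, hc⟩

theorem exists_msplit (x : (Mt r)ˣ) : ∃ (s : (Mt r)ˣ) (N : Mt r), IsNilpotent N ∧ x = s * eU N ∧
    (∀ z, Commute z x.val → Commute z N) ∧ (AdU s).IsSemisimple := by
  let e := toLinAlgEquiv' (R := ℂ) (n := Fin r)
  obtain ⟨n, h1, s, -, h3, h4, h5⟩ :=
    Module.End.exists_isNilpotent_isSemisimple (f := e x.val)
  obtain ⟨n, rfl⟩ := e.surjective n
  obtain ⟨S, rfl⟩ := e.surjective s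
  have k1 : x.val = n + S := e.injective (by rw [h5, map_add])
  have k2 : IsNilpotent n := (IsNilpotent.map_iff e.injective).1 h3
  have k3 : ∀ z, Commute z x.val → Commute z n := fun z hz => e.injective (by
    rw [map_mul, map_mul]
    exact Algebra.commute_of_mem_adjoin_singleton_of_commute h1 (hz.map e))
  have k4 : S = -n + x.val := by rw [k1, neg_add_cancel_left]
  obtain ⟨s, rfl⟩ : IsUnit S := k4 ▸ k2.neg.isUnit_add_right_of_commute x.isUnit
    (k3 _ (Commute.refl _)).neg_right.symm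
  have k5 : ∀ z, Commute z x.val → Commute z s.val := fun z hz =>
    k4 ▸ (k3 z hz).neg_right.add_right hz
  have k6 : Commute n x.val := (k3 _ (Commute.refl _)).symm
  obtain ⟨k, hk⟩ := (k5 n k6).units_inv_right.symm.isNilpotent_mul_left k2
  obtain ⟨N, a1, a2, a3⟩ := exists_nlog k ((s⁻¹).val * n) (by rw [pow_succ, hk, zero_mul])
  have k7 : Polynomial.aeval s.val (minpoly ℂ (e s.val)) = 0 := e.injective (by
    rw [← Polynomial.aeval_algHom_apply, minpoly.aeval, map_zero])
  have hl : Module.End.IsSemisimple (LinearMap.mulLeft ℂ s.val) := by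
    apply Module.End.isSemisimple_of_squarefree_aeval_eq_zero h4.minpoly_squarefree
    have : Polynomial.aeval (Algebra.lmul ℂ (Mt r) s.val) (minpoly ℂ (e s.val)) = 0 := by
      rw [Polynomial.aeval_algHom_apply, k7, map_zero]
    exact this
  have hr : Module.End.IsSemisimple (LinearMap.mulRight ℂ s.val) := by
    apply Module.End.isSemisimple_of_squarefree_aeval_eq_zero h4.minpoly_squarefree
    have hrw : LinearMap.mulRight ℂ s.val =
        (Algebra.lsmul (A := (Mt r)ᵐᵒᵖ) ℂ ℂ (Mt r)) (.op s.val) :=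
      LinearMap.ext fun z => by simp [Algebra.lsmul]
    rw [hrw, Polynomial.aeval_algHom_apply, Polynomial.aeval_op_apply, k7, MulOpposite.op_zero,
      map_zero]
  refine ⟨s, N, a1, Units.ext ?_, fun z hz => a3 z ((k5 z hz).units_inv_right.mul_right (k3 z hz)),
    hl.mul_of_commute (LinearMap.commute_mulLeft_right _ _) (inv_ss ?_ hr)⟩
  · change _ = s.val * exp N
    rw [a2, mul_add, mul_one, ← mul_assoc, s.mul_inv, one_mul, k1, add_comm]
  · exact LinearMap.ext fun z => by simp [mul_assoc]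

theorem AdU_nil {N : Mt r} (h : IsNilpotent N) : IsNilpotent (AdU (eU N) - 1) := by
  have e : AdU (eU N) - 1 = LinearMap.mulLeft ℂ (exp N - 1) * LinearMap.mulRight ℂ (exp (-N)) +
      LinearMap.mulRight ℂ (exp (-N) - 1) := LinearMap.ext fun z => by
    change exp N * (z * exp (-N)) - z = (exp N - 1) * (z * exp (-N)) + z * (exp (-N) - 1)
    noncomm_ring
  rw [e]
  refine Commute.isNilpotent_add (Commute.mul_left (LinearMap.commute_mulLeft_right _ _)
    (LinearMap.ext fun z => ?_))
    ((LinearMap.commute_mulLeft_right _ _).isNilpotent_mul_right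
      ((LinearMap.isNilpotent_mulLeft_iff _ _).2 (exp_nil h)))
    ((LinearMap.isNilpotent_mulRight_iff _ _).2 (exp_nil h.neg))
  change z * (exp (-N) - 1) * exp (-N) = z * exp (-N) * (exp (-N) - 1)
  noncomm_ring

theorem exists_jordan3 [NeZero r] (hL : LieW W) {x : (Mt r)ˣ}
    (hx : ∀ z ∈ W, x.val * z * (x⁻¹).val ∈ W) :
    ∃ N ∈ W, ∃ s : (Mt r)ˣ, Ss s ∧ IsNilpotent N ∧ x = s * eU N ∧
      ∀ c : ℂ, c ≠ 0 → Cj W x.val (s.val * exp (c • N)) := by
  obtain ⟨s, N, hn, rfl, h3, h4⟩ := exists_msplit x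
  have c1 := h3 _ (Commute.refl _)
  have c2 : Commute (s * eU N) (eU N) := Units.ext c1.exp_right
  have c3 : Commute s (eU N) := by
    have := c2.eq
    rwa [← mul_assoc, mul_left_inj] at this
  have c5 : Commute s.val N := by
    have := c1.mul_left (Commute.refl N).neg_left.exp_left
    rwa [Units.val_mul, mul_assoc, show (eU N).val * exp (-N) = 1 from (eU N).mul_inv,
      mul_one] at this
  have d1 : Commute (AdU s) (AdU (eU N) - 1) := (c3.map AdU).sub_right (Commute.one_right _)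
  have d2 : AdU s ∈ Algebra.adjoin ℂ {AdU (s * eU N)} := by
    obtain ⟨n', b1, s', b2, b3, b4, b5⟩ :=
      Module.End.exists_isNilpotent_isSemisimple (f := AdU (s * eU N))
    obtain ⟨-, b6⟩ := Module.End.isNilpotent_isSemisimple_unique b3 b4
      (d1.isNilpotent_mul_left (AdU_nil hn)) h4
      (Algebra.commute_of_mem_adjoin_singleton_of_commute b2
        (Algebra.commute_of_mem_adjoin_self b1).symm)
      ((Commute.refl _).mul_left d1.symm) (by rw [← b5, map_mul, mul_sub, mul_one, sub_add_cancel])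
    rwa [b6] at b2
  have d3 : ∀ φ ∈ Algebra.adjoin ℂ {AdU (s * eU N)}, ∀ z ∈ W, φ z ∈ W := fun φ hφ => by
    induction hφ using Algebra.adjoin_induction with
    | mem y hy => exact fun z hz => by rw [hy, AdU_apply]; exact hx z hz
    | algebraMap c => exact fun z hz => W.smul_mem c hz
    | add a b _ _ ha hb => exact fun z hz => W.add_mem (ha z hz) (hb z hz)
    | mul a b _ _ ha hb => exact fun z hz => ha _ (hb z hz)
  have d4 : ∀ z ∈ W, AdU (eU N) z ∈ W := fun z hz => by
    have := inv_keep (T := AdU s⁻¹) (by rw [← map_mul, inv_mul_cancel, map_one]) (d3 _ d2) _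
      (d3 _ (Algebra.self_mem_adjoin_singleton _ _) z hz)
    rwa [← Module.End.mul_apply, ← map_mul, inv_mul_cancel_left] at this
  have d5 : ∀ n : ℕ, eU ((n : ℂ) • N) = eU N ^ n := fun n => Units.ext (by
    rw [Units.val_pow_eq_pow_val, Nat.cast_smul_eq_nsmul]
    exact Matrix.exp_nsmul n N)
  have d6 : ∀ n : ℕ, ∀ z ∈ W, AdU (eU N ^ n) z ∈ W := fun n => by
    induction n with
    | zero => simp
    | succ n ih => exact fun z hz => by rw [pow_succ, map_mul]; exact ih _ (d4 z hz)
  have hN : N ∈ W := mem_of_nil hL hn (ad_mem hn fun n z hz => by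
    have := d6 n z hz
    rwa [← d5, AdU_apply] at this)
  have c6 : ∀ z ∈ W, (AdU s - 1) z ∈ W := fun z hz => W.sub_mem (d3 _ d2 z hz) hz
  have c7 : Ss s := sq_ker (by
    have := (Module.End.isSemisimple_sub_algebraMap_iff (μ := (1 : ℂ))).2 h4
    rwa [map_one] at this)
  have c8 : ∀ z, (AdU s - 1) z = 0 ↔ Commute s.val z := fun z => by
    rw [LinearMap.sub_apply, Module.End.one_apply, sub_eq_zero, AdU_apply,
      Units.mul_inv_eq_iff_eq_mul]
    rfl
  obtain ⟨Y, hY, k1⟩ := exists_ad hL hN hN hn fun _ h => h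
  obtain ⟨Z, k2⟩ := ker_range ((AdU s - 1).restrict c6)
    (fun y hy => Subtype.ext (c7 y (congrArg Subtype.val hy))) ⟨Y, hY⟩
  have k3 : Commute s.val (Y - (AdU s - 1) Z) := (c8 _).1 (congrArg Subtype.val k2)
  have k4 : Y - (AdU s - 1) Z ∈ W := W.sub_mem hY (c6 _ Z.2)
  obtain ⟨H, rfl⟩ : ∃ H, Y = H + (AdU s - 1) Z := ⟨_, (sub_add_cancel _ _).symm⟩
  rw [add_sub_cancel_right] at k3 k4
  have k5 : (AdU s - 1) (N * Z - Z * N) = N - (N * H - H * N) := by
    have e2 : ∀ y, s.val * (N * y) = N * (s.val * y) := fun y => by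
      rw [← mul_assoc, c5.eq, mul_assoc]
    have e3 := c5.units_inv_left.eq
    nth_rw 3 [← k1]
    simp only [LinearMap.sub_apply, Module.End.one_apply, AdU_apply, mul_add, add_mul, mul_sub,
      sub_mul, mul_assoc, e2, e3]
    abel
  have k6 : N * H - H * N = N := by
    refine (sub_eq_zero.1 ?_).symm
    rw [← k5]
    refine c7 _ ?_
    rw [k5, c8]
    exact c5.sub_right ((c5.mul_right k3).sub_right (k3.mul_right c5))
  refine ⟨N, hN, s, c7, hn, rfl, fun c hc0 => ?_⟩
  set B := (-Complex.log c) • H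
  have e2 := exp_eig (B := B) (e := N) (c := Complex.log c) (by
    rw [smul_mul_assoc, mul_smul_comm, ← smul_sub, neg_smul, ← smul_neg, neg_sub, k6])
  rw [Complex.exp_log hc0, ← smul_mul_assoc] at e2
  refine ⟨eU B, eU_mem (W.smul_mem _ k4), ?_⟩
  rw [show c • N = (eU B).val * N * ((eU B)⁻¹).val from
    (Units.eq_mul_inv_iff_mul_eq (eU B)).2 e2.symm, Matrix.exp_units_conj, Units.val_mul,
    ← mul_assoc, ← mul_assoc, ← mul_assoc]
  exact congrArg (· * exp N * ((eU B)⁻¹).val) (k3.smul_right _).exp_right.eq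

end Pool.Agent.GR.OK
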