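import Pool.Agent.Lib.MP_aa40d3_nt.OK.Defs

/-! A short root detects every non-central unit that centralises the Cartan subalgebra. -/

open Matrix NormedSpace
open scoped Matrix.Norms.Operator

namespace Pool.Agent.GR.OK

open OP OG LieAlgebra LieAlgebra.IsKilling LieModule

attribute [local instance 100] LieRing.ofAssociativeRing

variable {r : ℕ}

theorem short_root2 {ι M N : Type} [AddCommGroup M] [Module ℂ M] [AddCommGroup N] [Module ℂ N]
    (P : RootPairing ι ℂ M N) [Finite ι] [Nonempty ι] [P.IsCrystallographic] [P.IsReduced]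
    [P.IsIrreducible] : ∃ b, ∀ T : Set ι, (∀ k, ∀ j ∈ T, P.reflectionPerm k j ∈ T) →
      (∀ a, ∀ j ∈ T, P.reflectionPerm a j ∈ T → P.pairingIn ℤ j a = -1 → a ∈ T) → b ∈ T →
        ∀ a, a ∈ T := by
  let L : ι → Set ι := fun b => {a | ∀ T : Set ι, (∀ k, ∀ j ∈ T, P.reflectionPerm k j ∈ T) →
      (∀ a, ∀ j ∈ T, P.pairingIn ℤ j a = -1 → a ∈ T) → b ∈ T → a ∈ T}
  have l0 : ∀ b, b ∈ L b := fun b T _ _ h => h
  have l1 : ∀ b k, ∀ j ∈ L b, P.reflectionPerm k j ∈ L b := fun b k j h T t1 t2 t3 =>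
    t1 k j (h T t1 t2 t3)
  have l2 : ∀ b a, ∀ j ∈ L b, P.pairingIn ℤ j a = -1 → a ∈ L b := fun b a j h e T t1 t2 t3 =>
    t2 a j (h T t1 t2 t3) e
  have l3 : ∀ b a, ∀ j ∈ L b, P.pairingIn ℤ j a = 1 ∨ P.pairingIn ℤ j a = -1 → a ∈ L b :=
    fun b a j h e => e.elim (fun e => l2 b a _ (l1 b j j h) (by simp [e])) (l2 b a j h)
  have hle : ∀ a b, a ∈ L b → L a ≤ L b := fun a b h j hj => hj _ (l1 b) (l2 b) h
  have hO : ∀ b, ∀ j ∈ Orb P b, j ∈ L b ∧ b ∈ L j := fun b j hj => by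
    induction hj with
    | refl => exact ⟨l0 b, l0 b⟩
    | @tail j _ _ e ih =>
      obtain ⟨k, rfl⟩ := e
      refine ⟨l1 b k j ih.1, hle _ _ ?_ ih.2⟩
      have := l1 _ k _ (l0 (P.reflectionPerm k j))
      rwa [P.reflectionPerm_self] at this
  have tot : ∀ a b, L a ≤ L b ∨ L b ≤ L a := fun a b => by
    obtain ⟨j, hj, h0⟩ : ∃ j ∈ Orb P b, P.pairing j a ≠ 0 := by
      by_contra hn
      push Not at hn
      have e := RootPairing.IsIrreducible.eq_top_of_invtSubmodule_reflection (P := P)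
        (Submodule.span ℂ (P.root '' Orb P b)) (fun k => Submodule.span_le.2 (by
          rintro _ ⟨j, hj, rfl⟩
          exact Submodule.subset_span ⟨_, .tail hj ⟨k, rfl⟩, P.root_reflectionPerm k j⟩))
        fun e => P.ne_zero b (e.le (Submodule.subset_span ⟨b, .refl, rfl⟩))
      have k : P.coroot' a (P.root a) = 0 :=
        (Submodule.span_le (p := LinearMap.ker (P.coroot' a))).2 (by
          rintro _ ⟨j, hj, rfl⟩
          exact hn j hj) (e.ge trivial)
      simp at k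
    obtain ⟨o1, o2⟩ := hO b j hj
    by_cases e1 : P.root j = P.root a
    · exact Or.inl (hle a b (P.root.injective e1 ▸ o1))
    by_cases e2 : P.root j = -P.root a
    · refine Or.inl (hle a b ?_)
      rw [P.root_eq_neg_iff.1 (neg_eq_iff_eq_neg.2 e2).symm]
      exact l1 b j j o1
    have k := P.pairingIn_pairingIn_mem_set_of_isCrystal_of_isRed' j a e1 e2
    rw [← P.algebraMap_pairingIn ℤ] at h0
    have k0 : P.pairingIn ℤ j a ≠ 0 := fun e => h0 (by rw [e, map_zero])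
    have k1 : (P.pairingIn ℤ j a = 1 ∨ P.pairingIn ℤ j a = -1) ∨
        P.pairingIn ℤ a j = 1 ∨ P.pairingIn ℤ a j = -1 := by
      simp only [Set.mem_insert_iff, Set.mem_singleton_iff, Prod.mk.injEq] at k
      omega
    exact k1.imp (fun e => hle a b (l3 b a j o1 e))
      fun e => (hle b j o2).trans (hle j a (l3 a j a (l0 a) e))
  obtain ⟨_, ⟨⟨b, rfl⟩, hb⟩⟩ := (Set.finite_range L).exists_maximal (Set.range_nonempty L)
  exact ⟨b, fun T t1 t2 t3 a =>
    ((tot a b).elim id fun e => hb ⟨a, rfl⟩ e) (l0 a) T t1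
      (fun a j h => t2 a j h (t1 a j h)) t3⟩

theorem conj_two {X Z : Mt r} (h : adL X (adL X (adL X Z)) = 0) :
    exp X * Z * exp (-X) = Z + adL X Z + (2 : ℂ)⁻¹ • adL X (adL X Z) := by
  refine HasSum.unique (hasSum_conj X Z) ?_
  have h1 : HasSum (fun n : ℕ => (n.factorial : ℂ)⁻¹ • (adL X ^ n) Z) _ :=
    hasSum_sum_of_ne_finset_zero (s := Finset.range 3) fun n hn => by
      obtain ⟨n, rfl⟩ := Nat.exists_eq_add_of_le' (not_lt.1 (mt Finset.mem_range.2 hn))
      rw [pow_add, Module.End.mul_apply, show (adL X ^ 3) Z = 0 from h, map_zero, smul_zero]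
  simpa [Finset.sum_range_succ, pow_succ] using h1

theorem conj_refl {e f h B : Mt r} {a : ℂ}
    (h1 : e * f - f * e = h) (h2 : h * e - e * h = (2 : ℂ) • e)
    (h3 : h * f - f * h = (-2 : ℂ) • f) (h4 : B * e - e * B = a • e)
    (h5 : B * f - f * B = (-a) • f) :
    AdU ((eU e)⁻¹ * eU f * eU (-e)) B = B - a • h := by
  have k0 : ∀ x : Mt r, adL x x = 0 := fun x => sub_self _
  have k1 : adL e B = (-a) • e := by rw [adL_apply, ← neg_sub, h4, neg_smul]
  have k2 : adL e h = (-2 : ℂ) • e := by rw [adL_apply, ← neg_sub, h2, neg_smul]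
  have k3 : adL f B = a • f := by rw [adL_apply, ← neg_sub, h5, neg_smul, neg_neg]
  have k4 : adL f h = (2 : ℂ) • f := by rw [adL_apply, ← neg_sub, h3, neg_smul, neg_neg]
  have k5 : adL f e = -h := by rw [adL_apply, ← neg_sub, h1]
  have c1 := conj_two (X := -e) (Z := B) (by simp [k0, k1])
  have c2 := conj_two (X := f) (Z := B + a • e) (by simp [k0, k3, k4, k5])
  have c3 := conj_two (X := e) (Z := B - a • h) (by simp [k0, k1, k2])
  simp only [map_neg, LinearMap.neg_apply, map_add, map_sub, map_smul, k0, k1, k2, k3, k4, k5,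
    neg_smul, neg_neg, smul_zero, neg_zero, add_zero, sub_zero] at c1 c2 c3
  have d1 : AdU (eU (-e)) B = B + a • e := by
    rw [AdU_apply, ← c1, ← neg_neg e, neg_neg (-e)]
    rfl
  have d2 : AdU (eU f) (B + a • e) = AdU (eU e) (B - a • h) := by
    rw [AdU_apply, AdU_apply]
    refine c2.trans (Eq.trans ?_ c3.symm)
    module
  rw [map_mul, map_mul, Module.End.mul_apply, Module.End.mul_apply, d1, d2, ← Module.End.mul_apply,
    ← map_mul, inv_mul_cancel, map_one, Module.End.one_apply]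

theorem AdU_brk (x : (Mt r)ˣ) (a b : Mt r) :
    AdU x (a * b - b * a) = AdU x a * AdU x b - AdU x b * AdU x a := by
  simp only [AdU_apply, mul_sub, sub_mul, mul_assoc, Units.inv_mul_cancel_left]

theorem AdU_eig {x : (Mt r)ˣ} {z : Mt r} {c : ℂ} :
    AdU x z = c • z ↔ x.val * z = c • (z * x.val) := by
  rw [AdU_apply, Units.mul_inv_eq_iff_eq_mul, smul_mul_assoc]

theorem exists_short2 (L : LieSubalgebra ℂ (Mt r)) [LieAlgebra.IsKilling ℂ L]
    [LieAlgebra.IsSimple ℂ L] (H : LieSubalgebra ℂ L) [H.IsCartanSubalgebra] :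
    ∃ e ∈ L, ∃ f ∈ L, ∃ h : Mt r, e ≠ 0 ∧ e * f - f * e = h ∧ h * e - e * h = (2 : ℂ) • e ∧
      h * f - f * h = (-2 : ℂ) • f ∧ ∀ x : (Mt r)ˣ, (∀ z ∈ L, x.val * z * (x⁻¹).val ∈ L) →
        (∀ B : H, Commute x.val B.1.1) → (∃ z ∈ L, x.val * z ≠ z * x.val) →
          ∃ g ∈ GW L.toSubmodule, ∃ a : ℂ, a ≠ 1 ∧
            (g * x * g⁻¹).val * e = a • (e * (g * x * g⁻¹).val) ∧
              f * (g * x * g⁻¹).val = a • ((g * x * g⁻¹).val * f) := by
  let E : (H → ℂ) → Mt r → Prop := fun χ z =>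
    z ∈ L ∧ ∀ B : H, B.1.1 * z - z * B.1.1 = χ B • z
  have hr : ∀ (χ : H → ℂ) (z : L), z ∈ rootSpace H χ → E χ z.1 := fun χ z hz =>
    ⟨z.2, fun B => congrArg Subtype.val (lie_eq_smul_of_mem_rootSpace hz B)⟩
  have hr' : ∀ (χ : H → ℂ) (z : Mt r) (h : E χ z), (⟨z, h.1⟩ : L) ∈ rootSpace H χ :=
    fun χ z h => weightSpace_le_genWeightSpace L χ
      ((mem_weightSpace χ _).2 fun B => Subtype.ext (h.2 B))
  have ho : ∀ χ : Weight ℂ H L, χ.IsNonZero → ∀ z w, E χ z → z ≠ 0 → E χ w →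
      ∃ c : ℂ, w = c • z := fun χ hχ z w hz h0 hw => by
    obtain ⟨c, hc⟩ := (finrank_eq_one_iff_of_nonzero' (⟨_, hr' _ z hz⟩ : rootSpace H χ)
      (fun e => h0 (congrArg (fun t : rootSpace H χ => t.1.1) e))).1
        (finrank_rootSpace_eq_one χ hχ) ⟨_, hr' _ w hw⟩
    exact ⟨c, (congrArg (fun t : rootSpace H χ => t.1.1) hc).symm⟩
  have hA : ∀ y : (Mt r)ˣ, (∀ z ∈ L, AdU y z ∈ L) → (∀ B : H, AdU y B.1.1 = B.1.1) →
      ∀ χ z, E χ z → E χ (AdU y z) := fun y h1 h2 χ z hz =>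
    ⟨h1 z hz.1, fun B => by rw [← map_smul, ← hz.2 B, AdU_brk, h2]⟩
  have ht : ∀ k : H.root, ∃ e f : L, IsSl2Triple (coroot k.1).1 e f ∧ E k.1 e.1 ∧
      E (-k.1 : Weight ℂ H L) f.1 := fun k => by
    obtain ⟨h, e, f, t, he, hf⟩ := exists_isSl2Triple_of_weight_isNonZero (H.isNonZero_coe_root k)
    exact ⟨e, f, t.h_eq_coroot (H.isNonZero_coe_root k) he hf ▸ t, hr _ e he, hr _ f hf⟩
  have h2 : ∀ k : H.root, k.1 (coroot k.1) = 2 := fun k =>
    root_apply_coroot (H.isNonZero_coe_root k)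
  have : Nonempty H.root := by
    by_contra hn
    have := RootPairing.IsIrreducible.nontrivial (rootSystem H)
    have e := RootPairing.IsRootSystem.span_root_eq_top (P := rootSystem H)
    rw [not_nonempty_iff] at hn
    rw [Set.range_eq_empty, Submodule.span_empty] at e
    exact bot_ne_top e
  obtain ⟨b, hb⟩ := short_root2 (rootSystem H)
  obtain ⟨e, f, t, k2, k3⟩ := ht b
  have k0 : e.1 ≠ 0 := fun h0 => t.e_ne_zero (Subtype.ext h0)
  have k1 : e.1 * f.1 - f.1 * e.1 = (coroot b.1).1.1 := congrArg Subtype.val t.lie_e_f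
  refine ⟨e, e.2, f, f.2, _, k0, k1, by rw [k2.2, h2], by rw [k3.2, Weight.coe_neg,
    Pi.neg_apply, h2], fun x hx hH ⟨z, hz, hB⟩ => ?_⟩
  by_contra hn
  push Not at hn
  have hG : ∀ g ∈ GW L.toSubmodule, ∀ z ∈ L, AdU g z ∈ L := fun g hg z hz =>
    AdU_apply g z ▸ GW_conj (W := L.toSubmodule) (fun a ha b hb => L.lie_mem ha hb) hg hz
  have hN : ∀ g ∈ GW L.toSubmodule, ∀ z ∈ L, AdU (g * x * g⁻¹) z ∈ L := fun g hg z hz => by
    rw [map_mul, map_mul, Module.End.mul_apply, Module.End.mul_apply]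
    exact hG g hg _ (AdU_apply x _ ▸ hx _ (hG _ (inv_mem hg) z hz))
  have k5 := hb {j | ∀ g ∈ GW L.toSubmodule, (∀ B : H, AdU (g * x * g⁻¹) B.1.1 = B.1.1) →
      ∀ z, E j.1 z → AdU (g * x * g⁻¹) z = z} (fun k j hj g hg hy z hz => ?_)
    (fun a j hj hj' ha g hg hy z hz => ?_) fun g hg hy z hz => ?_
  · have k6 : (⟨z, hz⟩ : L) ∈ ⨆ χ : Weight ℂ H L, genWeightSpace L χ :=
      (iSup_genWeightSpace_eq_top' ℂ H L).ge trivial
    refine hB (LieSubmodule.iSup_induction _ (motive := fun z : L => x.val * z.1 = z.1 * x.val)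
      k6 (fun χ z hz => ?_) (by simp) fun x y hx hy => ?_)
    · by_cases h0 : χ.IsNonZero
      · have := k5 ⟨χ, by simpa [LieSubalgebra.root] using h0⟩ 1 (one_mem _)
        simp only [one_mul, inv_one, mul_one, AdU_apply, Units.mul_inv_eq_iff_eq_mul] at this
        exact this hH z (hr χ z hz)
      · have k7 : z ∈ rootSpace H 0 := (not_not.1 h0 : χ.IsZero).eq ▸ hz
        rw [rootSpace_zero_eq] at k7
        exact hH ⟨z, k7⟩
    · rw [AddMemClass.coe_add, mul_add, add_mul, hx, hy]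
  · obtain ⟨e', f', t', m2, m3⟩ := ht k
    obtain ⟨n, n1, n2⟩ : ∃ n ∈ GW L.toSubmodule, ∀ B : H,
        AdU n B.1.1 = (B - k.1 B • coroot k.1).1.1 :=
      ⟨_, mul_mem (mul_mem (inv_mem (eU_mem e'.2)) (eU_mem f'.2)) (eU_mem (L.neg_mem e'.2)),
        fun B => conj_refl (congrArg Subtype.val t'.lie_e_f) (by rw [m2.2, h2])
          (by rw [m3.2, Weight.coe_neg, Pi.neg_apply, h2]) (m2.2 B) (m3.2 B)⟩
    have n3 : ∀ z, AdU n⁻¹ (AdU n z) = z := fun z => by
      rw [← Module.End.mul_apply, ← map_mul, inv_mul_cancel, map_one, Module.End.one_apply]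
    have n4 : ∀ z, AdU n (AdU n⁻¹ z) = z := fun z => by
      rw [← Module.End.mul_apply, ← map_mul, mul_inv_cancel, map_one, Module.End.one_apply]
    have n5 := hj (n⁻¹ * g) (mul_mem (inv_mem n1) hg)
    rw [show n⁻¹ * g * x * (n⁻¹ * g)⁻¹ = n⁻¹ * (g * x * g⁻¹) * n by group, map_mul, map_mul] at n5
    simp only [Module.End.mul_apply (AdU n⁻¹ * _), Module.End.mul_apply (AdU n⁻¹)] at n5
    have n6 := n5 (fun B => by rw [n2, hy, ← n2, n3]) (AdU n⁻¹ z)
      ⟨hG _ (inv_mem n1) z hz.1, fun B => by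
        have m5 := LinearMap.congr_fun ((rootSystem H).root_reflectionPerm k j)
          (B - k.1 B • coroot k.1)
        rw [RootPairing.reflection_apply_root] at m5
        rw [← n3 B.1.1, ← AdU_brk, n2, hz.2, map_smul]
        refine congrArg (· • _) (m5.trans ?_)
        simp [h2]
        ring⟩
    rw [← n4 (AdU _ z), ← n4 z, n6]
  · obtain ⟨e', f', t', m2, -⟩ := ht a
    obtain ⟨u, u', t'', m3, -⟩ := ht j
    have p1 : j.1 (coroot a.1) = -1 := by
      have := (rootSystem H).algebraMap_pairingIn ℤ j a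
      rw [ha] at this
      simpa using this.symm
    have p2 : e'.1 * u.1 - u.1 * e'.1 ≠ 0 := fun h0 => by
      obtain ⟨n, hn⟩ := IsSl2Triple.HasPrimitiveVectorWith.exists_nat (t := t') (m := u)
        (μ := (-1 : ℂ)) ⟨t''.e_ne_zero, Subtype.ext (p1 ▸ m3.2 (coroot a.1)), Subtype.ext h0⟩
      have : ((n + 1 : ℕ) : ℂ) = 0 := by rw [Nat.cast_succ, ← hn, neg_add_cancel]
      exact n.succ_ne_zero (Nat.cast_eq_zero.1 this)
    have p0 : e'.1 ≠ 0 := fun h0 => t'.e_ne_zero (Subtype.ext h0)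
    obtain ⟨c, hc⟩ := ho _ (H.isNonZero_coe_root a) _ _ m2 p0 (hA _ (hN g hg) hy _ _ m2)
    obtain ⟨c', rfl⟩ := ho _ (H.isNonZero_coe_root a) _ _ m2 p0 hz
    have p3 := hj' g hg hy (e'.1 * u.1 - u.1 * e'.1) ⟨L.lie_mem e'.2 u.2, fun B => by
      have m5 := LinearMap.congr_fun ((rootSystem H).root_reflectionPerm a j) B
      rw [RootPairing.reflection_apply_root] at m5
      have m6 : ((rootSystem H).reflectionPerm a j).1 B = a.1 B + j.1 B := m5.trans (by
        simp [p1, add_comm])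
      rw [m6, show ∀ B e u : Mt r, B * (e * u - u * e) - (e * u - u * e) * B =
        (B * e - e * B) * u + e * (B * u - u * B) - (B * u - u * B) * e - u * (B * e - e * B)
          from fun _ _ _ => by noncomm_ring, m2.2, m3.2]
      simp only [smul_mul_assoc, mul_smul_comm]
      module⟩
    rw [AdU_brk, hc, hj g hg hy u m3, smul_mul_assoc, mul_smul_comm, ← smul_sub] at p3
    rw [map_smul, hc, (smul_left_injective ℂ p2 (p3.trans (one_smul ℂ _).symm) : c = 1), one_smul]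
  · obtain ⟨c, hc⟩ := ho _ (H.isNonZero_coe_root b) _ _ k2 k0 (hA _ (hN g hg) hy _ _ k2)
    obtain ⟨c', rfl⟩ := ho _ (H.isNonZero_coe_root b) _ _ k2 k0 hz
    obtain ⟨d, hd⟩ := ho _ (H.isNonZero_coe_root b).neg _ _ k3
      (fun h0 => t.f_ne_zero (Subtype.ext h0)) (hA _ (hN g hg) hy _ _ k3)
    have p3 := hy (coroot b.1)
    rw [← k1, AdU_brk, hc, hd, smul_mul_smul_comm, smul_mul_smul_comm, mul_comm d, ← smul_sub,
      k1] at p3
    have p4 : c * d = 1 := smul_left_injective ℂ (fun h0 => t.h_ne_zero (Subtype.ext h0))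
      (p3.trans (one_smul ℂ _).symm)
    have p5 : c = 1 := by
      by_contra h1
      exact hn g hg c h1 (AdU_eig.1 hc) (by rw [AdU_eig.1 hd, smul_smul, p4, one_smul])
    rw [map_smul, hc, p5, one_smul]

end Pool.Agent.GR.OK
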