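import Pool.Agent.Lib.MP_aa40d3_nt.OG.Sl2

/-! The block of the top power of the nilpotent member of an `sl₂`-triple, for a unit. -/

open Matrix NormedSpace
open scoped Matrix.Norms.Operator

namespace Pool.Agent.GR.OK

open OP OG

variable {r : ℕ}

theorem sl2_block2 [NeZero r] {e f h : Mt r} (he : e ≠ 0) (h1 : e * f - f * e = h)
    (h2 : h * e - e * h = (2 : ℂ) • e) (h3 : h * f - f * h = (-2 : ℂ) • f) :
    ∃ (d s : ℕ) (U : Matrix (Fin r) (Fin (s + 1)) ℂ) (F : Matrix (Fin (s + 1)) (Fin r) ℂ),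
      e ^ (d + 2) = 0 ∧ e ^ (d + 1) = U * F ∧ ∀ (x : (Mt r)ˣ) (a : ℂ), a ≠ 1 →
        x.val * e = a • (e * x.val) → f * x.val = a • (x.val * f) →
          (F * (exp (-f) * x.val * exp f) * U).det ≠ 0 := by
  classical
  have hn : ∃ k, e ^ (k + 2) = 0 := by
    obtain ⟨k, hk⟩ := nil_of_trace (z := e) fun k hk _ => by
      have := congrArg trace (wt_pow h2 k)
      rw [trace_add, trace_mul_comm, left_eq_add, trace_smul, smul_eq_zero] at this
      exact this.resolve_left (mul_ne_zero (Nat.cast_ne_zero.2 hk.ne') two_ne_zero)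
    exact ⟨k, by rw [pow_add, hk, zero_mul]⟩
  have hT : e ^ (Nat.find hn + 1) ≠ 0 := by
    rcases hk : Nat.find hn with _ | k
    · simpa using he
    · exact Nat.find_min hn (hk ▸ k.lt_succ_self)
  obtain ⟨s, U, F, k1, k2, k3⟩ := exists_fact hT
  refine ⟨_, s, U, F, Nat.find_spec hn, k1, fun x a ha b1 b2 h0 => ?_⟩
  obtain ⟨κ, c1, c2⟩ := sl2_top h1 h2 h3 (Nat.find_spec hn) (c := 1 - a) (sub_ne_zero.2 ha.symm)
  have e1 : exp (-f) * x.val * exp f = x.val * exp ((1 - a) • f) := by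
    have := Matrix.exp_units_conj' x (-f)
    rw [mul_assoc, neg_mul, b2, mul_neg, mul_smul_comm, Units.inv_mul_cancel_left, mul_assoc,
      Units.eq_inv_mul_iff_mul_eq] at this
    rw [← this, mul_assoc, ← Matrix.exp_add_of_commute _ _ ((Commute.refl f).smul_left _).neg_left,
      sub_smul, one_smul, neg_add_eq_sub]
  have e2 : ∀ k : ℕ, x.val * e ^ k = a ^ k • (e ^ k * x.val) := fun k => by
    induction k with
    | zero => simp
    | succ k ih => rw [pow_succ, ← mul_assoc, ih, smul_mul_assoc, mul_assoc, b1, mul_smul_comm,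
        smul_smul, ← pow_succ, ← mul_assoc]
  have e3 := e2 (Nat.find hn + 1)
  rw [k1] at c2 e3
  obtain ⟨v, hv, e4⟩ := Matrix.exists_mulVec_eq_zero_iff.2 h0
  obtain ⟨w, rfl⟩ := k3 v
  have e5 : a ^ (Nat.find hn + 1) • (U * (F * (x.val * exp ((1 - a) • f)) * U) * F) =
      κ • (x.val * (U * F)) := by
    calc _ = a ^ (Nat.find hn + 1) • (U * F * x.val) * exp ((1 - a) • f) * (U * F) := by
          simp only [Matrix.mul_assoc, smul_mul_assoc]
      _ = _ := by rw [← e3, mul_assoc x.val, mul_assoc x.val, c2, mul_smul_comm]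
  have e6 := congrArg (· *ᵥ w) e5
  simp only [← e1, smul_mulVec] at e6
  rw [← mulVec_mulVec, ← mulVec_mulVec, e4, mulVec_zero, smul_zero] at e6
  refine hv (k2 _ ?_)
  have e7 := congrArg ((x⁻¹).val *ᵥ ·) ((smul_eq_zero.1 e6.symm).resolve_left c1)
  simp only [mulVec_mulVec, mulVec_zero] at e7
  rwa [Units.inv_mul_cancel_left, ← mulVec_mulVec] at e7

end Pool.Agent.GR.OK
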