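import Pool.Agent.Lib.MP_aa40d3_nt.OK.Tor
import Pool.Agent.Lib.MP_aa40d3_nt.OK.Short
import Pool.Agent.Lib.MP_aa40d3_nt.OK.Sl2
import Pool.Agent.Lib.MP_aa40d3_nt.OK.Jor3

/-! Two members of a big group are in opposite position for one nilpotent element. -/

open Matrix NormedSpace
open scoped Matrix.Norms.Operator

namespace Pool.Agent.GR.OK

open OP OG NP

attribute [local instance 100] LieRing.ofAssociativeRing

variable {r : ℕ}

theorem block_big [NeZero r] {L : LieSubalgebra ℂ (Mt r)} (hL : LieW L.toSubmodule)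
    [LieAlgebra.IsSimple ℂ L] {Γ : Subgroup (Mt r)ˣ} (hΓ : Big L Γ) :
    ∃ e ∈ L, ∃ (d s : ℕ) (U : Matrix (Fin r) (Fin (s + 1)) ℂ)
      (F : Matrix (Fin (s + 1)) (Fin r) ℂ), e ^ (d + 2) = 0 ∧ e ^ (d + 1) = U * F ∧
        ∀ x ∈ Γ, (∀ c : ℂ, ¬ IsNilpotent (x.val - c • 1)) →
          ∃ g ∈ GW L.toSubmodule, (F * (g.val * x.val * (g⁻¹).val) * U).det ≠ 0 := by
  obtain ⟨H, _, hH⟩ := exists_cartan2 L hL
  obtain ⟨e, he, f, hf, h, h0, h1, h2, h3, h4⟩ := exists_short2 L H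
  obtain ⟨d, s, U, F, k1, k2, k3⟩ := sl2_block2 h0 h1 h2 h3
  refine ⟨e, he, d, s, U, F, k1, k2, fun x hx h => ?_⟩
  obtain ⟨N, hN, S, a1, a2, a3, a4⟩ := exists_jordan3 hL (hΓ.nor x hx)
  have hS : S ∈ Γ := by
    rw [← mul_inv_cancel_right S (eU N), ← a3]
    exact mul_mem hx (inv_mem (hΓ.le (eU_mem hN)))
  obtain ⟨g₁, b1, b2⟩ := hH Γ hΓ S hS a1
  obtain ⟨g₂, b3, a, b4, b5, b6⟩ := h4 (g₁ * S * g₁⁻¹)
    (hΓ.nor _ (mul_mem (mul_mem (hΓ.le b1) hS) (inv_mem (hΓ.le b1)))) b2 (by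
      by_contra hc
      push Not at hc
      obtain ⟨c, e⟩ := hL.cen _ fun z hz => (hc z hz).symm
      have e' : S.val = c • 1 := by
        rw [show S = g₁⁻¹ * (g₁ * S * g₁⁻¹) * g₁ by group, Units.val_mul, Units.val_mul, e,
          mul_smul_comm, smul_mul_assoc, mul_one, g₁.inv_mul]
      refine h c ?_
      rw [a3, Units.val_mul, e', smul_mul_assoc, one_mul, ← smul_sub]
      exact (exp_nil a2).smul c)
  obtain ⟨g, hg, a6⟩ : ∃ g ∈ GW L.toSubmodule,
      (F * (g.val * (S.val * exp ((0 : ℂ) • N)) * (g⁻¹).val) * U).det ≠ 0 := by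
    refine ⟨(eU f)⁻¹ * g₂ * g₁, mul_mem (mul_mem (inv_mem (eU_mem hf)) b3) b1, ?_⟩
    have := k3 _ a b4 b5 b6
    simp only [zero_smul, exp_zero, mul_one, _root_.mul_inv_rev, inv_inv, Units.val_mul,
      mul_assoc] at this ⊢
    exact this
  have a7 : Continuous fun c : ℂ =>
      (F * (g.val * (S.val * exp (c • N)) * (g⁻¹).val) * U).det := by
    have : Continuous fun c : ℂ => exp (c • N) := exp_continuous.comp (by fun_prop)
    exact ((continuous_const.matrix_mul ((continuous_const.matrix_mul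
      (continuous_const.matrix_mul this)).matrix_mul
      continuous_const)).matrix_mul continuous_const).matrix_det
  obtain ⟨c, c1, c2⟩ := (dense_compl_singleton (0 : ℂ)).inter_nhds_nonempty
    (a7.continuousAt.eventually_ne a6)
  obtain ⟨g', hg', e2⟩ := (a4 c c1).trans ⟨g, hg, rfl⟩
  exact ⟨g', hg', e2 ▸ c2⟩

theorem opp_big [NeZero r] {L : LieSubalgebra ℂ (Mt r)} (hL : LieW L.toSubmodule)
    (hs : ∀ I ≤ L.toSubmodule, (∀ a ∈ L, ∀ z ∈ I, a * z - z * a ∈ I) → I = ⊥ ∨ I = L.toSubmodule)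
    {Γ : Subgroup (Mt r)ˣ} (hΓ : Big L Γ) {x y : (Mt r)ˣ} (hx : x ∈ Γ) (hy : y ∈ Γ)
    (tx : ∀ c : ℂ, ¬ IsNilpotent (x.val - c • 1))
    (ty : ∀ c : ℂ, ¬ IsNilpotent (y.val - c • 1)) : Opp L.toSubmodule x.val y.val := by
  have : LieAlgebra.IsSimple ℂ L := by
    refine ⟨fun I => ?_, fun h => ?_⟩
    · refine (hs (I.toSubmodule.map L.toSubmodule.subtype) (Submodule.map_subtype_le _ _) ?_).imp
        (fun e => eq_bot_iff.2 fun x hx => Subtype.ext (e.le ⟨x, hx, rfl⟩))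
        fun e => eq_top_iff.2 fun x _ => ?_
      · rintro a ha _ ⟨z, hz, rfl⟩
        exact ⟨_, I.lie_mem (x := ⟨a, ha⟩) hz, rfl⟩
      · obtain ⟨y, hy, e'⟩ := e.ge x.2
        exact (Subtype.ext e' : y = x) ▸ hy
    · have k : ∀ a ∈ L, a = 0 := fun a ha => by
        obtain ⟨c, e⟩ := hL.cen a fun b hb => sub_eq_zero.1
          (congrArg Subtype.val (trivial_lie_zero L L ⟨b, hb⟩ ⟨a, ha⟩))
        have k4 := hL.tr a ha
        rw [e, trace_smul, trace_one, Fintype.card_fin, smul_eq_mul, mul_eq_zero,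
          or_iff_left (Nat.cast_ne_zero.2 (NeZero.ne r))] at k4
        rw [e, k4, zero_smul]
      obtain ⟨c, e⟩ := hL.cen x.val fun a ha => by rw [k a ha, zero_mul, mul_zero]
      exact tx c (by rw [e, sub_self]; exact IsNilpotent.zero)
  obtain ⟨e, he, d, s, U, F, k1, k2, k3⟩ := block_big hL hΓ
  obtain ⟨g, hg, k4⟩ := common (W := L.toSubmodule) (Finset.univ : Finset Bool)
    (fun j p => (F * (p.1 * (bif j then x.val else y.val) * p.2) * U).det)
    (fun j => by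
      simp only [det_apply', Matrix.mul_apply]
      fun_prop)
    fun j _ => by
      cases j
      exacts [k3 y hy ty, k3 x hx tx]
  refine ⟨_, GW_conj hL.lie (inv_mem hg) he, d, s, (g⁻¹).val * U, F * g.val, ?_, ?_, ?_, ?_⟩
  · rw [Units.conj_pow, k1, mul_zero, zero_mul]
  · rw [Units.conj_pow, k2, inv_inv]
    simp only [Matrix.mul_assoc]
  · simpa only [Matrix.mul_assoc, cond_true] using k4 true (Finset.mem_univ _)
  · simpa only [Matrix.mul_assoc, cond_false] using k4 false (Finset.mem_univ _)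

end Pool.Agent.GR.OK
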