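import Pool.Agent.Lib.MP_aa40d3_nt.OL.Van

/-! Analytic relations for the frame itself are kept by the monodromy. -/

open Polynomial Matrix Set Filter Topology
open scoped Matrix.Norms.Operator

namespace Pool.Agent.GR.OK

open OL

variable {n N : ℕ} [NeZero N] {t : Fin n → ℂ} {A : Fin n → Mat N} {H : ℝ}
  {F : ℂ → (Mat N)ˣ → ℂ}

omit [NeZero N] in
theorem gen_diff (hF : ∀ (Y : ℂ → (Mat N)ˣ) (x : ℂ),
      DifferentiableAt ℂ (fun y => (Y y).val) x → DifferentiableAt ℂ (fun y => F y (Y y)) x)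
    {Y : ℂ → (Mat N)ˣ} (g : (Mat N)ˣ) {x : ℂ} (h : DifferentiableAt ℂ (fun y => (Y y).val) x) :
    DifferentiableAt ℂ (fun y => F y (Y y * g)) x :=
  hF (fun y => Y y * g) x (h.mul_const g.val)

omit [NeZero N] in
theorem gen_iff (hF : ∀ (Y : ℂ → (Mat N)ˣ) (x : ℂ),
      DifferentiableAt ℂ (fun y => (Y y).val) x → DifferentiableAt ℂ (fun y => F y (Y y)) x)
    (hb : InBox (pp t) H) {σ : ℝ} (hσ : ∀ j, (t j).re ≠ σ) (g : (Mat N)ˣ) :
    (∀ y ∈ Lo t, F y (Fb t A H y * g) = 0) ↔ ∀ y ∈ High t,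
      F y (Ft t A H y * ((Vp (TT t A) H (-H))⁻¹ * Vp (TT t A) H σ * g)) = 0 := by
  set c := (Vp (TT t A) H (-H))⁻¹ * Vp (TT t A) H σ with hc
  have e : ∀ y : ℂ, y.re = σ → F y (Fb t A H y * g) = F y (Ft t A H y * (c * g)) := by
    intro y hy
    have h1 : Fb t A H y = Ft t A H y * c := by
      rw [hc, ← hy]
      exact NS.Ybot_Vp (rectT_TT t A) hb (q := (y.re, y.im)) fun j e => hσ j (e.trans hy)
    rw [h1, mul_assoc]
  constructor
  · intro h
    refine van_conv high_open high_conv (fun y hy => gen_diff hF _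
      (differentiableAt_Yt A hb (x := y) fun j _ => hy j)) (z := ⟨σ, H⟩)
      (fun j => (abs_lt.1 (hb j).2).2) fun y hy => ?_
    rw [← e y hy]
    exact van_line (t := t) (fun y hy => gen_diff hF g
      (differentiableAt_Yb A hb (x := y) fun j e => absurd e (hy j))) (z := ⟨σ, -H⟩) hσ
      (mem_of_superset (low_open.mem_nhds fun j => (abs_lt.1 (hb j).2).1) h) hy
  · intro h
    refine van_conv low_open low_conv (fun y hy => gen_diff hF _
      (differentiableAt_Yb A hb (x := y) fun j _ => hy j)) (z := ⟨σ, -H⟩)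
      (fun j => (abs_lt.1 (hb j).2).1) fun y hy => ?_
    rw [e y hy]
    exact van_line (t := t) (fun y hy => gen_diff hF _
      (differentiableAt_Yt A hb (x := y) fun j e => absurd e (hy j))) (z := ⟨σ, H⟩) hσ
      (mem_of_superset (high_open.mem_nhds fun j => (abs_lt.1 (hb j).2).2) h) hy

theorem gen_mul (hF : ∀ (Y : ℂ → (Mat N)ˣ) (x : ℂ),
      DifferentiableAt ℂ (fun y => (Y y).val) x → DifferentiableAt ℂ (fun y => F y (Y y)) x)
    (ht : Function.Injective fun i => (t i).re) (hb : InBox (pp t) H) {γ : (Mat N)ˣ}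
    (hγ : γ ∈ Subgroup.closure (Set.range (vt (TT t A) (pp t) H))) : ∀ g : (Mat N)ˣ,
    (∀ y ∈ Lo t, F y (Fb t A H y * (γ * g)) = 0) ↔ ∀ y ∈ Lo t, F y (Fb t A H y * g) = 0 := by
  induction hγ using Subgroup.closure_induction with
  | mem x hx =>
    obtain ⟨i, rfl⟩ := hx
    intro g
    obtain ⟨ε, hε, hval⟩ := exists_validAt ht i
    have hv : ValidAt (fun j => (pp t j).1) i ((t i).re - ε) ((t i).re + ε) :=
      hval _ _ le_rfl (by linarith) (by linarith) le_rfl
    have hlo : ∀ j, (t j).re ≠ (t i).re - ε := fun j e => by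
      by_cases hj : j = i
      · exact hv.1.ne' (hj ▸ e)
      · exact hv.2.2 j hj ⟨e.ge, e.le.trans (hv.1.trans hv.2.1).le⟩
    have hhi : ∀ j, (t j).re ≠ (t i).re + ε := fun j e => by
      by_cases hj : j = i
      · exact hv.2.1.ne (hj ▸ e)
      · exact hv.2.2 j hj ⟨(hv.1.trans hv.2.1).le.trans e.ge, e.le⟩
    rw [gen_iff hF hb hlo, gen_iff hF hb hhi, vt_eq (rectT_TT t A) hb hv]
    simp only [mul_assoc, mul_inv_cancel_left]
  | one => intro g; rw [one_mul]
  | mul x y _ _ hx hy => intro g; rw [mul_assoc, hx, hy]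
  | inv x _ hx => intro g; rw [← hx, mul_inv_cancel_left]

theorem van_gen (F : ℂ → (Mat N)ˣ → ℂ) (hF : ∀ (Y : ℂ → (Mat N)ˣ) (x : ℂ),
      DifferentiableAt ℂ (fun y => (Y y).val) x → DifferentiableAt ℂ (fun y => F y (Y y)) x)
    (ht : Function.Injective fun i => (t i).re) (hb : InBox (pp t) H) {γ : (Mat N)ˣ}
    (hγ : γ ∈ Subgroup.closure (Set.range (vt (TT t A) (pp t) H)))
    (h : ∀ y ∈ Lo t, F y (Fb t A H y) = 0) : ∀ y ∈ Lo t, F y (Fb t A H y * γ) = 0 := by
  have := (gen_mul hF ht hb hγ 1).2 (by simpa only [mul_one] using h)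
  rwa [mul_one] at this

end Pool.Agent.GR.OK
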