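import Pool.Agent.Lib.MP_aa40d3_nt.OK.Loc
import Pool.Agent.Lib.MP_aa40d3_nt.OC.StmtG

/-! Endomorphisms of the matrix algebra are inner. -/

open Matrix Filter Topology
open scoped Matrix.Norms.Operator

namespace Pool.Agent.GR.OK

open OP OG OC

variable {r : ℕ}

theorem sko [NeZero r] (θ : Module.End ℂ (Mt r)) (hm : ∀ a b, θ (a * b) = θ a * θ b)
    (h1 : θ 1 = 1) : ∃ u : (Mt r)ˣ, θ = AdU u := by
  let f := AlgHom.ofLinearMap θ h1 hm
  have hi : Function.Injective f := f.toRingHom.injective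
  let e := toLinAlgEquiv' (R := ℂ) (n := Fin r)
  obtain ⟨T, hT⟩ := ((e.symm.trans (AlgEquiv.ofBijective f
    ⟨hi, (LinearMap.injective_iff_surjective (f := θ)).1 hi⟩)).trans e).eq_linearEquivConjAlgEquiv
  refine ⟨⟨e.symm T.toLinearMap, e.symm T.symm.toLinearMap, ?_, ?_⟩, LinearMap.ext fun a =>
    e.injective ?_⟩
  · rw [← map_mul, ← map_one e.symm]
    exact congrArg _ (LinearMap.ext T.apply_symm_apply)
  · rw [← map_mul, ← map_one e.symm]
    exact congrArg _ (LinearMap.ext T.symm_apply_apply)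
  · have := AlgEquiv.congr_fun hT (e a)
    rw [AlgEquiv.trans_apply, AlgEquiv.trans_apply, e.symm_apply_apply] at this
    rw [AdU_apply, map_mul, map_mul]
    refine this.trans ?_
    change _ = e (e.symm T.toLinearMap) * e a * e (e.symm T.symm.toLinearMap)
    rw [e.apply_symm_apply, e.apply_symm_apply]
    rfl

theorem sim_map [NeZero r] {g : Submodule ℂ (Mt r)} (hg : SimL g)
    (θ : Module.End ℂ (Mt r)) (hm : ∀ a b, θ (a * b) = θ a * θ b) (h1 : θ 1 = 1) :
    Function.Bijective θ ∧ SimL (g.map θ) := by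
  obtain ⟨u, rfl⟩ := sko θ hm h1
  obtain ⟨g1, g2, g3, g4⟩ := hg
  have hb : Function.Bijective (AdU u) :=
    (Module.End.isUnit_iff _).1 ((Group.isUnit u).map AdU)
  have hv : ∀ v : Fin r → ℂ, u.val *ᵥ (u⁻¹).val *ᵥ v = v := fun v => by
    rw [mulVec_mulVec, u.mul_inv, one_mulVec]
  refine ⟨hb, ?_, ?_, fun U hU => ?_, fun I hI h => ?_⟩
  · rintro _ ⟨a, ha, rfl⟩
    rw [AdU_apply, trace_units_conj, g1 a ha]
  · rintro _ ⟨a, ha, rfl⟩ _ ⟨b, hb, rfl⟩
    exact ⟨_, g2 a ha b hb, by rw [map_sub, hm, hm]⟩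
  · refine (g3 (U.comap (toLin' u.val)) fun a ha v hv => ?_).imp
      (fun e => eq_bot_iff.2 fun v h => ?_) fun e => eq_top_iff.2 fun v _ => ?_
    · have := hU _ ⟨a, ha, rfl⟩ _ hv
      rwa [toLin'_apply, AdU_apply, mulVec_mulVec, Units.inv_mul_cancel_right,
        ← mulVec_mulVec] at this
    · have : (u⁻¹).val *ᵥ v = 0 := e.le (show u.val *ᵥ _ ∈ U by rwa [hv])
      rw [← hv v, this, mulVec_zero]
      exact zero_mem _
    · exact hv v ▸ e.ge (Submodule.mem_top (x := (u⁻¹).val *ᵥ v))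
  · refine (g4 (I.comap (AdU u)) (fun a ha => ?_) fun a ha b hb => ?_).imp
      (fun e => ?_) fun e => ?_
    · obtain ⟨b, k, e⟩ := hI ha
      exact hb.1 e ▸ k
    · rw [Submodule.mem_comap, map_sub, hm, hm]
      exact h _ ⟨a, ha, rfl⟩ _ hb
    · rw [← Submodule.map_comap_eq_of_surjective hb.2 I, e, Submodule.map_bot]
    · rw [← e, Submodule.map_comap_eq_of_surjective hb.2]

theorem loc_fam [NeZero r] {W : Submodule ℂ (Mt r)} (hL : LieW W)
    {T : ℂ → Module.End ℂ (Mt r)} {x : ℂ} (hc : ∀ a, ContinuousAt (fun y => T y a) x)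
    (h0 : T x = 1) : ∀ᶠ y in 𝓝 x, (∀ a b, T y (a * b) = T y a * T y b) →
      (∀ a ∈ W, T y a ∈ W) → ∃ u ∈ GW W, T y = AdU u := by
  let u : ℂ → Mt r := fun y => ∑ i, T y (single i 0 1) * single 0 i 1
  have h1 : Tendsto u (𝓝 x) (𝓝 1) := by
    have : u x = 1 := by
      simp only [u, h0, Module.End.one_apply, single_mul_single_same, mul_one]
      exact (Matrix.sum_single_one)
    rw [← this]
    exact tendsto_finsetSum _ fun i _ => (hc _).mul continuousAt_const
  filter_upwards [h1.eventually (loc hL), h1.eventually (Units.isOpen.mem_nhds isUnit_one)]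
    with y k1 k2 hm hW
  obtain ⟨v, hv⟩ := k2
  have e : T y = AdU v := LinearMap.ext fun a => by
    rw [AdU_apply, Units.eq_mul_inv_iff_mul_eq, hv]
    induction a using Matrix.induction_on' with
    | h_zero => simp
    | h_add a b ha hb => rw [map_add, add_mul, mul_add, ha, hb]
    | h_std_basis i j c =>
      simp only [u, Finset.mul_sum, Finset.sum_mul, ← mul_assoc, ← hm]
      rw [Finset.sum_eq_single j, Finset.sum_eq_single i]
      · rw [single_mul_single_same, mul_assoc, single_mul_single_same,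
          show single i (0 : Fin r) (c * 1) = c • single i 0 (1 : ℂ) by simp,
          show single (0 : Fin r) j (1 * c) = c • single 0 j (1 : ℂ) by simp,
          map_smul, smul_mul_assoc, mul_smul_comm]
      · exact fun k _ hk => by rw [mul_assoc, single_mul_single_of_ne _ _ _ _ hk, mul_zero]
      · simp
      · exact fun k _ hk => by rw [single_mul_single_of_ne _ _ _ _ hk.symm, map_zero, zero_mul]
      · simp
  obtain ⟨X, hX, k⟩ := k1 v hv (e ▸ hW)
  exact ⟨_, eU_mem hX, e.trans k⟩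

end Pool.Agent.GR.OK
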