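import Pool.Agent.Lib.MP_aa40d3_nt.OG.Com

/-! Groups that lie in the closure of the group generated by the exponentials. -/

open Matrix

namespace Pool.Agent.GR.OK

open OP OG

attribute [local instance 100] LieRing.ofAssociativeRing

variable {r : ℕ}

/-- Conjugation by a unit. -/
noncomputable def AdU : (Mt r)ˣ →* Module.End ℂ (Mt r) := AdR (Units.coeHom (Mt r))

theorem AdU_apply (x : (Mt r)ˣ) (z : Mt r) : AdU x z = x.val * z * (x⁻¹).val := AdR_apply _ x z

/-- Conjugation is semisimple at the eigenvalue one. -/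
def Ss (s : (Mt r)ˣ) : Prop := ∀ z, (AdU s - 1) ((AdU s - 1) z) = 0 → (AdU s - 1) z = 0

/-- A group that contains the exponentials, normalises the Lie algebra, and whose members have
the eigenvalue one with multiplicity at least the rank. -/
structure Big (L : LieSubalgebra ℂ (Mt r)) (Γ : Subgroup (Mt r)ˣ) : Prop where
  le : GW L.toSubmodule ≤ Γ
  nor : ∀ x ∈ Γ, ∀ z ∈ L, x.val * z * (x⁻¹).val ∈ L
  rk : ∀ x ∈ Γ, ∃ E ≤ L.toSubmodule, LieAlgebra.rank ℂ L ≤ Module.finrank ℂ E ∧
    ∀ z ∈ E, ∃ k : ℕ, ((AdU x - 1) ^ k) z = 0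

end Pool.Agent.GR.OK
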