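import Pool.Agent.Lib.MP_aa40d3_nt.OK.Defs

/-! The part of finite order of a quasi-unipotent unit lies in the closure of its orbit. -/

open Matrix NormedSpace
open scoped Matrix.Norms.Operator

namespace Pool.Agent.GR.OK

open OP OG NP

variable {r : ℕ} {W : Submodule ℂ (Mt r)}

theorem exists_nlog (k : ℕ) : ∀ a : Mt r, a ^ (k + 1) = 0 → ∃ N, IsNilpotent N ∧ exp N = 1 + a ∧
    ∀ z, Commute z a → Commute z N := by
  induction k with
  | zero => exact fun a h => ⟨0, IsNilpotent.zero, by simpa using h, fun _ _ => Commute.zero_right _⟩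
  | succ k ih =>
    intro a h
    have h1 : HasSum (fun n : ℕ => (n.factorial : ℂ)⁻¹ • (-a) ^ n) _ :=
      hasSum_sum_of_ne_finset_zero (s := Finset.range (k + 2)) fun n hn => by
        rw [neg_pow, pow_eq_zero_of_le (not_lt.1 (mt Finset.mem_range.2 hn)) h, mul_zero, smul_zero]
    set c : Mt r := ∑ n ∈ Finset.range k, ((n + 1 + 1).factorial : ℂ)⁻¹ • (-a) ^ n with hc
    have h2 : exp (-a) = a ^ 2 * c - a + 1 := by
      rw [show exp (-a) = _ from (exp_series_hasSum_exp' (𝕂 := ℂ) (-a)).unique h1,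
        Finset.sum_range_succ', Finset.sum_range_succ', hc, Finset.mul_sum]
      simp only [zero_add, Nat.factorial_one, Nat.factorial_zero, Nat.cast_one, inv_one, one_smul,
        pow_one, pow_zero, sub_eq_add_neg]
      congr 2
      exact Finset.sum_congr rfl fun n _ => by
        rw [mul_smul_comm, ← neg_sq a, ← pow_add, add_comm 2 n]
    have h3 : Commute a c := Commute.sum_right _ _ _ fun n _ =>
      ((Commute.refl a).neg_right.pow_right n).smul_right _
    have h4 : exp (-a) * (1 + a) - 1 = a ^ 2 * (c * (1 + a) - 1) := by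
      rw [h2]
      noncomm_ring
    have h5 : ∀ z, Commute z a → Commute z (exp (-a) * (1 + a) - 1) := fun z hz =>
      (hz.neg_right.exp_right.mul_right ((Commute.one_right z).add_right hz)).sub_right
        (Commute.one_right z)
    obtain ⟨N, k1, k2, k3⟩ := ih (exp (-a) * (1 + a) - 1) (by
      rw [h4, (((h3.mul_right ((Commute.one_right a).add_right (Commute.refl a))).sub_right
        (Commute.one_right a)).pow_left 2).mul_pow, ← pow_mul,
        pow_eq_zero_of_le (by omega) h, zero_mul])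
    have k4 := k3 a (h5 a (Commute.refl a))
    refine ⟨a + N, k4.isNilpotent_add ⟨_, h⟩ k1, ?_, fun z hz => hz.add_right (k3 z (h5 z hz))⟩
    rw [Matrix.exp_add_of_commute _ _ k4, k2, add_sub_cancel, ← mul_assoc,
      show exp a * exp (-a) = 1 from (eU a).mul_inv, one_mul]

theorem ad_mem {N : Mt r} (hN : IsNilpotent N)
    (h : ∀ n : ℕ, ∀ z ∈ W, exp ((n : ℂ) • N) * z * exp (-((n : ℂ) • N)) ∈ W) :
    ∀ z ∈ W, N * z - z * N ∈ W := fun z hz => by
  obtain ⟨K, hK⟩ : IsNilpotent (adL N) := (LinearMap.commute_mulLeft_right N N).isNilpotent_sub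
    ((LinearMap.isNilpotent_mulLeft_iff _ _).2 hN) ((LinearMap.isNilpotent_mulRight_iff _ _).2 hN)
  refine (Subspace.forall_mem_dualAnnihilator_apply_eq_zero_iff W _).1 fun φ hφ => ?_
  rw [Submodule.mem_dualAnnihilator] at hφ
  have h1 : ∑ k ∈ Finset.range (K + 2), Polynomial.monomial k
      (φ ((k.factorial : ℂ)⁻¹ • (adL N ^ k) z)) = 0 := by
    refine Polynomial.eq_zero_of_infinite_isRoot _ (Set.infinite_range_of_injective
      (Nat.cast_injective (R := ℂ)) |>.mono ?_)
    rintro _ ⟨n, rfl⟩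
    have h2 : HasSum (fun k : ℕ => (k.factorial : ℂ)⁻¹ • (adL ((n : ℂ) • N) ^ k) z) _ :=
      hasSum_sum_of_ne_finset_zero (s := Finset.range (K + 2)) fun k hk => by
        rw [map_smul, _root_.smul_pow, pow_eq_zero_of_le
          (by have := not_lt.1 (mt Finset.mem_range.2 hk); omega) hK]
        simp
    have h3 := hφ _ (h n z hz)
    rw [(hasSum_conj _ z).unique h2, map_sum] at h3
    rw [Set.mem_ofPred_eq, Polynomial.IsRoot, Polynomial.eval_finsetSum, ← h3]
    refine Finset.sum_congr rfl fun k _ => ?_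
    rw [Polynomial.eval_monomial, map_smul adL, _root_.smul_pow, LinearMap.smul_apply, smul_comm,
      map_smul φ ((n : ℂ) ^ k), smul_eq_mul, mul_comm]
  have h2 := congrArg (Polynomial.coeff · 1) h1
  simpa [Polynomial.finsetSum_coeff, Polynomial.coeff_monomial, adL_apply] using h2

theorem mem_of_nil [NeZero r] (hL : LieW W) {N : Mt r} (hN : IsNilpotent N)
    (h : ∀ z ∈ W, N * z - z * N ∈ W) : N ∈ W := by
  obtain ⟨X, k1, k2⟩ := hL.inner h
  obtain ⟨c, hc⟩ := hL.cen (N - X) fun a ha => by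
    rw [mul_sub, sub_mul, sub_eq_sub_iff_sub_eq_sub, ← neg_sub, ← k2 a ha, neg_sub]
  have k4 := congrArg Matrix.trace hc
  rw [trace_sub, (Matrix.isNilpotent_trace_of_isNilpotent hN).eq_zero, hL.tr X k1, sub_zero,
    trace_smul, trace_one, Fintype.card_fin, smul_eq_mul, zero_eq_mul,
    or_iff_left (Nat.cast_ne_zero.2 (NeZero.ne r))] at k4
  rw [k4, zero_smul, sub_eq_zero] at hc
  rwa [hc]

theorem exists_jordan2 [NeZero r] (hL : LieW W) {x : (Mt r)ˣ}
    (hx : ∀ z ∈ W, x.val * z * (x⁻¹).val ∈ W) (hq : QU x.val) :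
    ∃ N ∈ W, ∃ s : (Mt r)ˣ, IsOfFinOrder s ∧ IsNilpotent N ∧ x = s * eU N ∧
      ∀ c : ℂ, c ≠ 0 → Cj W x.val (s.val * exp (c • N)) := by
  obtain ⟨E, hE, k, hk⟩ := hq
  obtain ⟨M, h1, h2, h3⟩ := exists_nlog k (x.val ^ E - 1) (by rw [pow_succ, hk, zero_mul])
  rw [add_sub_cancel] at h2
  have h4 : ∀ (X : Mt r) (n : ℕ), eU ((n : ℂ) • X) = eU X ^ n := fun X n => Units.ext (by
    rw [Units.val_pow_eq_pow_val, Nat.cast_smul_eq_nsmul]
    exact Matrix.exp_nsmul n X)
  have h5 : eU M = x ^ E := Units.ext (by rw [Units.val_pow_eq_pow_val]; exact h2)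
  have h6 : ∀ n : ℕ, ∀ z ∈ W, (x ^ n).val * z * ((x ^ n)⁻¹).val ∈ W := fun n => by
    induction n with
    | zero => simp
    | succ n ih =>
      intro z hz
      simpa only [pow_succ, _root_.mul_inv_rev, Units.val_mul, mul_assoc] using ih _ (hx z hz)
  have hM : M ∈ W := mem_of_nil hL h1 (ad_mem h1 fun n z hz => by
    have := h6 (E * n) z hz
    rwa [pow_mul, ← h5, ← h4] at this)
  have hE' : (E : ℂ) ≠ 0 := Nat.cast_ne_zero.2 hE.ne'
  obtain ⟨N, rfl⟩ : ∃ N, M = (E : ℂ) • N := ⟨(E : ℂ)⁻¹ • M, (smul_inv_smul₀ hE' M).symm⟩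
  have hN : N ∈ W := (W.smul_mem_iff hE').1 hM
  have hn : IsNilpotent N := by simpa [smul_smul, hE'] using h1.smul (E : ℂ)⁻¹
  have c1 : Commute x.val N := by
    simpa [smul_smul, hE'] using (h3 _ (((Commute.refl _).pow_right E).sub_right
      (Commute.one_right _))).smul_right (E : ℂ)⁻¹
  have c2 : Commute x (eU N) := Units.ext c1.exp_right
  obtain ⟨s, rfl⟩ : ∃ s, x = s * eU N := ⟨x * (eU N)⁻¹, (inv_mul_cancel_right _ _).symm⟩
  have c3 : Commute s (eU N) := by
    have := c2.eq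
    rwa [← mul_assoc, mul_left_inj] at this
  have c4 : s ^ E = 1 := by rwa [h4, c3.mul_pow, right_eq_mul] at h5
  have c5 : Commute s.val N := by
    have := c1.mul_left (Commute.refl N).neg_left.exp_left
    rwa [Units.val_mul, mul_assoc, show (eU N).val * exp (-N) = 1 from (eU N).mul_inv,
      mul_one] at this
  have c6 : ∀ z ∈ W, (AdU s - 1) z ∈ W := fun z hz => W.sub_mem (by
    simpa [AdU_apply, mul_assoc] using hx _ (GW_conj hL.lie (inv_mem (eU_mem hN)) hz)) hz
  have c7 : ∀ z, (AdU s - 1) ((AdU s - 1) z) = 0 → (AdU s - 1) z = 0 := fun z hz => by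
    have e : ∀ n : ℕ, (AdU s ^ n) z = z + (n : ℂ) • (AdU s - 1) z := fun n => by
      induction n with
      | zero => simp
      | succ n ih =>
        rw [pow_succ', Module.End.mul_apply, ih, map_add, map_smul,
          show AdU s ((AdU s - 1) z) = (AdU s - 1) z from sub_eq_zero.1 hz, Nat.cast_succ, add_smul,
          one_smul, LinearMap.sub_apply, Module.End.one_apply]
        abel
    have := e E
    rw [← map_pow, c4, map_one, Module.End.one_apply, left_eq_add] at this
    exact (smul_eq_zero.1 this).resolve_left hE'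
  have c8 : ∀ z, (AdU s - 1) z = 0 ↔ Commute s.val z := fun z => by
    rw [LinearMap.sub_apply, Module.End.one_apply, sub_eq_zero, AdU_apply,
      Units.mul_inv_eq_iff_eq_mul]
    rfl
  obtain ⟨Y, hY, k1⟩ := exists_ad hL hN hN hn fun _ h => h
  obtain ⟨Z, k2⟩ := ker_range ((AdU s - 1).restrict c6)
    (fun y hy => Subtype.ext (c7 y (congrArg Subtype.val hy))) ⟨Y, hY⟩
  have k3 : Commute s.val (Y - (AdU s - 1) Z) := (c8 _).1 (congrArg Subtype.val k2)
  have k4 : Y - (AdU s - 1) Z ∈ W := W.sub_mem hY (c6 _ Z.2)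
  obtain ⟨H, rfl⟩ : ∃ H, Y = H + (AdU s - 1) Z := ⟨_, (sub_add_cancel _ _).symm⟩
  rw [add_sub_cancel_right] at k3 k4
  have k5 : (AdU s - 1) (N * Z - Z * N) = N - (N * H - H * N) := by
    have e2 : ∀ y, s.val * (N * y) = N * (s.val * y) := fun y => by
      rw [← mul_assoc, c5.eq, mul_assoc]
    have e3 := c5.units_inv_left.eq
    nth_rw 3 [← k1]
    simp only [LinearMap.sub_apply, Module.End.one_apply, AdU_apply, mul_add, add_mul, mul_sub,
      sub_mul, mul_assoc, e2, e3]
    abel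
  have k6 : N * H - H * N = N := by
    refine (sub_eq_zero.1 ?_).symm
    rw [← k5]
    refine c7 _ ?_
    rw [k5, c8]
    exact c5.sub_right ((c5.mul_right k3).sub_right (k3.mul_right c5))
  refine ⟨N, hN, s, isOfFinOrder_iff_pow_eq_one.2 ⟨E, hE, c4⟩, hn, rfl, fun c hc0 => ?_⟩
  set B := (-Complex.log c) • H
  have e2 := exp_eig (B := B) (e := N) (c := Complex.log c) (by
    rw [smul_mul_assoc, mul_smul_comm, ← smul_sub, neg_smul, ← smul_neg, neg_sub, k6])
  rw [Complex.exp_log hc0, ← smul_mul_assoc] at e2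
  refine ⟨eU B, eU_mem (W.smul_mem _ k4), ?_⟩
  rw [show c • N = (eU B).val * N * ((eU B)⁻¹).val from
    (Units.eq_mul_inv_iff_mul_eq (eU B)).2 e2.symm, Matrix.exp_units_conj, Units.val_mul,
    ← mul_assoc, ← mul_assoc, ← mul_assoc]
  exact congrArg (· * exp N * ((eU B)⁻¹).val) (k3.smul_right _).exp_right.eq

end Pool.Agent.GR.OK
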