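import Pool.Agent.Lib.MP_aa40d3_nt.OK.Defs

/-! Units near the identity that normalise the Lie algebra; the closure of the group. -/

open Matrix NormedSpace Filter Topology LieSubalgebra LieAlgebra
open scoped Matrix.Norms.Operator

namespace Pool.Agent.GR.OK

open OP OG

attribute [local instance 100] LieRing.ofAssociativeRing

variable {r : ℕ} {W : Submodule ℂ (Mt r)}

theorem AdU_eU (X : Mt r) (c : ℂ) : AdU (eU (X + c • 1)) = AdU (eU X) :=
  LinearMap.ext fun z => by
    rw [AdU_apply, AdU_apply]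
    change exp (X + c • 1) * z * exp (-(X + c • 1)) = exp X * z * exp (-X)
    rw [neg_add, ← neg_smul, exp_add_smul, exp_add_smul, smul_mul_assoc, smul_mul_smul_comm,
      ← Complex.exp_add, add_neg_cancel, Complex.exp_zero, one_smul]

theorem loc [NeZero r] (hL : LieW W) : ∀ᶠ c in 𝓝 (1 : Mt r), ∀ x : (Mt r)ˣ, x.val = c →
    (∀ z ∈ W, AdU x z ∈ W) → ∃ X ∈ W, AdU x = AdU (eU X) := by
  obtain ⟨C, hC⟩ := (W ⊔ ℂ ∙ (1 : Mt r)).exists_isCompl
  obtain ⟨p, p1, p2⟩ := exists_proj (W ⊔ ℂ ∙ (1 : Mt r))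
  obtain ⟨q, q1, q2⟩ := exists_proj W
  have h0 : ∀ {V : Type} [NormedAddCommGroup V] [NormedSpace ℂ V] (f : V →L[ℂ] Mt r),
      HasStrictFDerivAt (fun p => exp (f p)) f 0 := fun f => by
    have := HasStrictFDerivAt.comp (f := f) 0 ((map_zero f).symm ▸
      hasStrictFDerivAt_exp_zero (𝕂 := ℂ) (𝔸 := Mt r)) f.hasStrictFDerivAt
    exact this
  have h1 := (hasFDerivAt_pi.2 fun i : Fin r × Fin r => (1 - q).hasFDerivAt.comp 0
    (((h0 C.subtypeL).mul_const' (q (single i.1 i.2 1))).mul'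
      (h0 (-C.subtypeL))).hasFDerivAt).eventually_ne (c := 0) (by
    refine (LinearMap.exists_antilipschitzWith _ (eq_bot_iff.2 fun m hm => ?_)).imp fun _ h => h.2
    have k1 : ∀ z, m.1 * q z - q z * m.1 ∈ W := fun z => by
      induction z using Matrix.induction_on' with
      | h_zero => simp
      | h_add a b ha hb => simpa [mul_add, add_mul, add_sub_add_comm] using W.add_mem ha hb
      | h_std_basis i j c =>
        have k2 := congrFun hm (i, j)
        simp at k2
        rw [show single i j c = c • single i j (1 : ℂ) by simp, map_smul, mul_smul_comm,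
          smul_mul_assoc, ← smul_sub, ← sub_zero (_ - _), ← k2]
        refine W.smul_mem c ?_
        rw [show ∀ a b c d : Mt r, a - b - (c - b + (a - d)) = d - c from fun _ _ _ _ => by abel]
        exact W.sub_mem (q1 _) (q1 _)
    obtain ⟨X, k2, k3⟩ := hL.inner (X := m.1) fun z hz => q2 z hz ▸ k1 z
    obtain ⟨c, hc⟩ := hL.cen (m.1 - X) fun a ha => by
      rw [mul_sub, sub_mul, sub_eq_sub_iff_sub_eq_sub, ← neg_sub, ← k3 a ha, neg_sub]
    exact Subtype.ext (Submodule.disjoint_def.1 hC.disjoint _ (Submodule.mem_sup.2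
      ⟨X, k2, _, Submodule.mem_span_singleton.2 ⟨c, rfl⟩, by rw [← hc, add_sub_cancel]⟩) m.2))
  let a : Mt r × C →L[ℂ] Mt r := p ∘L ContinuousLinearMap.fst ℂ _ _
  let b : Mt r × C →L[ℂ] Mt r := C.subtypeL ∘L ContinuousLinearMap.snd ℂ _ _
  have h2 := ((h0 a).mul' (h0 b)).map_nhds_eq_of_surj (LinearMap.range_eq_top.2 fun y => by
    obtain ⟨w, hw, z, hz, rfl⟩ :=
      Submodule.mem_sup.1 (hC.sup_eq_top.ge (Submodule.mem_top (x := y)))
    exact ⟨(w, ⟨z, hz⟩), by simp [a, b, p2 w hw, add_comm]⟩)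
  have h3 := h2 ▸ image_mem_map ((continuous_snd.tendsto' (0 : Mt r × C) 0 rfl).eventually
    (eventually_nhdsWithin_iff.1 h1))
  simp only [Pi.mul_apply, map_zero, exp_zero, mul_one] at h3
  filter_upwards [h3]
  rintro _ ⟨m, hm, rfl⟩ x hx hn
  obtain ⟨X, hX, _, k, e⟩ := Submodule.mem_sup.1 (p1 m.1)
  obtain ⟨c, rfl⟩ := Submodule.mem_span_singleton.1 k
  have e1 : AdU x = AdU (eU X) * AdU (eU m.2.1) := by
    rw [← AdU_eU X c, e, ← map_mul]
    exact congrArg _ (Units.ext hx)
  refine ⟨X, hX, ?_⟩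
  by_cases h4 : m.2 = 0
  · rw [e1, h4, show eU ((0 : C) : Mt r) = 1 from Units.ext exp_zero, map_one, mul_one]
  refine absurd (funext fun i => ?_) (hm h4)
  have k1 := GW_conj hL.lie (inv_mem (eU_mem hX)) (hn _ (q1 (single i.1 i.2 1)))
  rw [← AdU_apply, e1, ← Module.End.mul_apply, ← mul_assoc, ← map_mul, inv_mul_cancel, map_one,
    one_mul, AdU_apply] at k1
  exact sub_eq_zero.2 (q2 _ k1).symm

theorem rk_iff {V V' : Type} [AddCommGroup V] [Module ℂ V] [FiniteDimensional ℂ V]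
    [AddCommGroup V'] [Module ℂ V'] (f : V →ₗ[ℂ] V') (l : ℕ) :
    l ≤ Module.finrank ℂ (LinearMap.ker f) ↔ ∀ m, Module.finrank ℂ V < m + l →
      ∀ (a : Fin m → V) (φ : V' →ₗ[ℂ] Fin m → ℂ), (of fun i => φ (f (a i))).det = 0 := by
  have h0 := f.finrank_range_add_finrank_ker
  refine ⟨fun h m hm a φ => ?_, fun h => ?_⟩
  · by_contra hn
    have h1 := Matrix.linearIndependent_rows_iff_isUnit.2
      ((Matrix.isUnit_iff_isUnit_det _).2 (Ne.isUnit hn))
    have h2 : LinearIndependent ℂ fun i => f.rangeRestrict (a i) :=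
      LinearIndependent.of_comp (φ ∘ₗ f.range.subtype) h1
    have h3 := h2.fintype_card_le_finrank
    rw [Fintype.card_fin] at h3
    omega
  · by_contra hn
    let b := Module.finBasis ℂ f.range
    choose a ha using fun i => (b i).2
    obtain ⟨φ, hφ⟩ := LinearMap.exists_extend b.equivFun.toLinearMap
    have h1 := h _ (by omega) a φ
    rw [show (of fun i => φ (f (a i))) = 1 from Matrix.ext fun i j => by
      rw [of_apply, ha, show φ (b i).1 = b.equivFun (b i) from LinearMap.congr_fun hφ (b i)]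
      simp [Matrix.one_apply, eq_comm], det_one] at h1
    exact one_ne_zero h1

end Pool.Agent.GR.OK
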