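import Pool.Agent.Lib.MP_aa40d3_nt.OK.Defs
import Pool.Agent.Lib.MP_aa40d3_nt.OL.Inst

/-! A semisimple member centralises a Cartan subalgebra. -/

open Matrix NormedSpace LieSubalgebra LieAlgebra Filter
open scoped Matrix.Norms.Operator

namespace Pool.Agent.GR.OK

open OP OG

attribute [local instance 100] LieRing.ofAssociativeRing

section

variable {V : Type} [AddCommGroup V] [Module ℂ V] [FiniteDimensional ℂ V]

theorem eig_one (a : Module.End ℂ V) {N : Submodule ℂ V} (h0 : N ≠ ⊥) (ha : ∀ z ∈ N, a z ∈ N) :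
    ∃ v ∈ N, v ≠ 0 ∧ ∃ c : ℂ, a v = c • v := by
  have := Submodule.nontrivial_iff_ne_bot.2 h0
  obtain ⟨c, hc⟩ := Module.End.exists_eigenvalue (a.restrict ha)
  obtain ⟨v, hv⟩ := hc.exists_hasEigenvector
  exact ⟨v, v.2, fun e => hv.2 (Subtype.ext e), c, congrArg Subtype.val hv.apply_eq_smul⟩

theorem map_bot {a b c : Module.End ℂ V} (hab : Commute a b) (hac : Commute a c)
    (hbc : Commute b c) {N : Submodule ℂ V} (ha : ∀ z ∈ N, a z ∈ N) (hb : ∀ z ∈ N, b z ∈ N)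
    (hc : ∀ z ∈ N, c z ∈ N) (h2 : ∀ z, c (c z) = 0 → c z = 0)
    (h : ∀ v ∈ N, v ≠ 0 → ∀ p q : ℂ, a v = p • v → b v = q • v → c v = 0) : ∀ z ∈ N, c z = 0 := by
  by_contra hn
  push Not at hn
  have k : ∀ {a : Module.End ℂ V}, Commute a c → (∀ z ∈ N, a z ∈ N) →
      ∀ z ∈ N.map c, a z ∈ N.map c := fun hac ha => by
    rintro _ ⟨z, hz, rfl⟩
    exact ⟨_, ha z hz, (LinearMap.congr_fun hac z).symm⟩
  obtain ⟨v, v1, v0, p, hp⟩ := eig_one a (N := N.map c) (fun e => by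
    obtain ⟨z, hz, h0⟩ := hn
    exact h0 (e.le ⟨z, hz, rfl⟩)) (k hac ha)
  obtain ⟨w, ⟨⟨z, hz, rfl⟩, w2⟩, w0, q, hq⟩ := eig_one b
    (N := N.map c ⊓ Module.End.eigenspace a p)
    (fun e => v0 (e.le ⟨v1, Module.End.mem_eigenspace_iff.2 hp⟩))
    fun z hz => ⟨k hbc hb z hz.1, Module.End.mem_eigenspace_iff.2
      ((LinearMap.congr_fun hab z).trans (by
        rw [Module.End.mul_apply, Module.End.mem_eigenspace_iff.1 hz.2, map_smul]))⟩
  exact w0 (h2 z (h _ (hc z hz) w0 p q (Module.End.mem_eigenspace_iff.1 w2) hq))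

theorem eig_fin (a b : Module.End ℂ V) : {p : ℂ × ℂ | ∃ v, v ≠ 0 ∧ a v = p.1 • v ∧
    b v = p.2 • v}.Finite :=
  (a.finite_hasEigenvalue.prod b.finite_hasEigenvalue).subset fun _ ⟨_, h0, h1, h2⟩ =>
    ⟨Module.End.hasEigenvalue_of_hasEigenvector ⟨Module.End.mem_eigenspace_iff.2 h1, h0⟩,
      Module.End.hasEigenvalue_of_hasEigenvector ⟨Module.End.mem_eigenspace_iff.2 h2, h0⟩⟩

theorem ker_add {a b : Module.End ℂ V} (hab : Commute a b) (h2 : ∀ z, a (a z) = 0 → a z = 0) :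
    ∃ τ : ℂ, τ ≠ 0 ∧ ∀ z, (a + τ • b) z = 0 → a z = 0 := by
  obtain ⟨τ, hτ⟩ := (((eig_fin a b).image fun p => -p.1 / p.2).insert 0).exists_notMem
  have k : ∀ {c : Module.End ℂ V}, Commute (a + τ • b) c → ∀ z ∈ LinearMap.ker (a + τ • b),
      c z ∈ LinearMap.ker (a + τ • b) := fun hc z hz =>
    (LinearMap.congr_fun hc z).trans (by rw [Module.End.mul_apply, hz, map_zero])
  have k1 := k ((Commute.refl a).add_left (hab.symm.smul_left τ))
  refine ⟨τ, fun e => hτ (Or.inl e), map_bot hab (Commute.refl a) hab.symm k1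
    (k (hab.add_left ((Commute.refl b).smul_left τ))) k1 h2 fun v hv v0 p q hp hq => ?_⟩
  have k2 : (a + τ • b) v = 0 := hv
  rw [LinearMap.add_apply, LinearMap.smul_apply, hp, hq, smul_smul, ← add_smul,
    smul_eq_zero_iff_left v0] at k2
  by_cases h0 : q = 0
  · rw [hp, show p = 0 by simpa [h0] using k2, zero_smul]
  · exact absurd (Or.inr ⟨(p, q), ⟨v, v0, hp, hq⟩, by field_simp; linear_combination -k2⟩) hτ

end

variable {r : ℕ}

theorem adL_comm {a b : Mt r} (h : Commute a b) : Commute (adL a) (adL b) :=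
  LinearMap.ext fun z => by
    simp only [Module.End.mul_apply, adL_apply, mul_sub, sub_mul, mul_assoc]
    rw [← mul_assoc a b z, ← mul_assoc b a z, h.eq]
    abel

theorem gen_elt (T : Submodule ℂ (Mt r)) (hc : ∀ a ∈ T, ∀ b ∈ T, Commute a b)
    (h2 : ∀ a ∈ T, ∀ z, adL a (adL a z) = 0 → adL a z = 0) :
    ∃ h ∈ T, ∀ z, adL h z = 0 → ∀ y ∈ T, adL y z = 0 := by
  obtain ⟨h, hT, hm⟩ := (measure fun a : Mt r => Module.finrank ℂ (LinearMap.ker (adL a))).wf.has_min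
    T ⟨0, T.zero_mem⟩
  refine ⟨h, hT, fun z hz y hy => ?_⟩
  obtain ⟨τ, h0, k⟩ := ker_add (adL_comm (hc h hT y hy)) (h2 h hT)
  rw [← map_smul, ← map_add] at k
  have e := Submodule.eq_of_le_of_finrank_le (S₁ := LinearMap.ker (adL (h + τ • y)))
    (S₂ := LinearMap.ker (adL h)) k (not_lt.1 (hm _ (T.add_mem hT (T.smul_mem τ hy))))
  have k2 : adL (h + τ • y) z = 0 := e.ge hz
  rw [map_add, map_smul, LinearMap.add_apply, hz, zero_add, LinearMap.smul_apply] at k2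
  exact (smul_eq_zero.1 k2).resolve_left h0

theorem killing [NeZero r] {L : LieSubalgebra ℂ (Mt r)} (hL : LieW L.toSubmodule) :
    IsKilling ℂ L := by
  have : LieModule.IsIrreducible ℂ L (Fin r → ℂ) := by
    refine LieModule.IsIrreducible.mk fun N hN => ?_
    have := (hL.irr N.toSubmodule fun a ha v hv => N.lie_mem (x := ⟨a, ha⟩) hv).resolve_left
      (by simpa using hN)
    simpa using this
  have : HasTrivialRadical ℂ L :=
    hasTrivialRadical_of_isIrreducible_of_isFaithful ℂ L (Fin r → ℂ) fun a =>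
      (Matrix.trace_toLin'_eq a.1).trans (hL.tr a.1 a.2)
  infer_instance

theorem split_mem [NeZero r] {W : Submodule ℂ (Mt r)} (hL : LieW W) {A : Mt r} (hA : A ∈ W) :
    ∃ N ∈ W, IsNilpotent N ∧ (∀ z, Commute z A → Commute z N) ∧
      ∀ y, adL (A - N) (adL (A - N) y) = 0 → adL (A - N) y = 0 := by
  obtain ⟨N, S, rfl, h1, h2, h3, h4⟩ := exists_split hL.lie hA
  refine ⟨N, ?_, h1, h2, by rwa [add_sub_cancel_right]⟩
  obtain ⟨X, k1, k2⟩ := hL.inner h4
  obtain ⟨c, hc⟩ := hL.cen (S - X) fun a ha => by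
    rw [mul_sub, sub_mul, sub_eq_sub_iff_sub_eq_sub, ← neg_sub, ← k2 a ha, neg_sub]
  have k3 := hL.tr _ hA
  have k4 := congrArg Matrix.trace hc
  rw [trace_add, (Matrix.isNilpotent_trace_of_isNilpotent h1).eq_zero, add_zero] at k3
  rw [trace_sub, k3, hL.tr X k1, sub_zero, trace_smul, trace_one, Fintype.card_fin, smul_eq_mul,
    zero_eq_mul, or_iff_left (Nat.cast_ne_zero.2 (NeZero.ne r))] at k4
  rw [k4, zero_smul, sub_eq_zero] at hc
  simpa [hc] using W.sub_mem hA k1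

theorem AdU_fix {s : (Mt r)ˣ} {z : Mt r} : (AdU s - 1) z = 0 ↔ Commute s.val z := by
  rw [LinearMap.sub_apply, sub_eq_zero, AdU_apply, Units.mul_inv_eq_iff_eq_mul]
  rfl

theorem kil_pow {L : Type} [LieRing L] [LieAlgebra ℂ L] (h v : L) (n : ℕ) :
    ∀ a, (ad ℂ L h ^ n) a = 0 → killingForm ℂ L a ((ad ℂ L h ^ n) v) = 0 := by
  induction n with
  | zero => exact fun a ha => by rw [show a = 0 from ha, map_zero, LinearMap.zero_apply]
  | succ n ih =>
    intro a ha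
    rw [pow_succ', Module.End.mul_apply, ad_apply, ← LieModule.traceForm_apply_lie_apply,
      ← lie_skew, map_neg, LinearMap.neg_apply, neg_eq_zero]
    exact ih _ ha

theorem exists_aut {L : LieSubalgebra ℂ (Mt r)} {s : (Mt r)ˣ}
    (hn : ∀ z ∈ L, s.val * z * (s⁻¹).val ∈ L) : ∃ θ : L ≃ₗ⁅ℂ⁆ L, ∀ z, (θ z).1 = AdU s z.1 := by
  have hθ : ∀ z ∈ L.toSubmodule, AdU s z ∈ L.toSubmodule := fun z hz => AdU_apply s z ▸ hn z hz
  let θ₀ : L →ₗ⁅ℂ⁆ L :=
    { (AdU s).restrict hθ with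
      map_lie' := fun {a b} => Subtype.ext (by
        change AdU s (a.1 * b.1 - b.1 * a.1) = AdU s a.1 * AdU s b.1 - AdU s b.1 * AdU s a.1
        simp only [AdU_apply, mul_sub, sub_mul, mul_assoc, Units.inv_mul_cancel_left]) }
  have hi : Function.Injective θ₀ := fun a b e => Subtype.ext (by
    have e1 : AdU s a.1 = AdU s b.1 := congrArg Subtype.val e
    rwa [AdU_apply, AdU_apply, Units.mul_left_inj, Units.mul_right_inj] at e1)
  exact ⟨LieEquiv.ofBijective θ₀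
    ⟨hi, (LinearMap.injective_iff_surjective (f := θ₀.toLinearMap)).1 hi⟩, fun _ => rfl⟩

theorem exists_tor [NeZero r] {L : LieSubalgebra ℂ (Mt r)} (hL : LieW L.toSubmodule)
    {s : (Mt r)ˣ} (hs : Ss s) (hn : ∀ z ∈ L, s.val * z * (s⁻¹).val ∈ L) :
    ∃ T ≤ L.toSubmodule, ∃ h ∈ T, (∀ y ∈ T, Commute s.val y) ∧ (∀ a ∈ T, ∀ b ∈ T, Commute a b) ∧
      (∀ a ∈ T, ∀ z, adL a (adL a z) = 0 → adL a z = 0) ∧
        ∀ z ∈ L, Commute s.val z → Commute h z → z ∈ T := by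
  have := killing hL
  let K : LieSubalgebra ℂ L :=
    { carrier := {z | Commute s.val z.1}
      add_mem' := fun ha hb => Commute.add_right ha hb
      zero_mem' := Commute.zero_right _
      smul_mem' := fun c _ ha => Commute.smul_right ha c
      lie_mem' := fun ha hb => Commute.sub_right (Commute.mul_right ha hb)
        (Commute.mul_right hb ha) }
  obtain ⟨h, hh⟩ := exists_isCartanSubalgebra_engel ℂ K
  obtain ⟨θ, hθ⟩ := exists_aut hn
  have nd : ∀ a ∈ engel ℂ h, (∀ b ∈ engel ℂ h, killingForm ℂ L a.1 b.1 = 0) → a = 0 := by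
    intro a ha k
    have k1 : ∀ b : K, killingForm ℂ L a.1 b.1 = 0 := fun b => by
      obtain ⟨n, hn⟩ := eventually_atTop.1 (ad ℂ K h).eventually_codisjoint_ker_pow_range_pow
      obtain ⟨m, hm⟩ := (mem_engel_iff ℂ h a).1 ha
      obtain ⟨c, hc, _, ⟨v, rfl⟩, rfl⟩ := Submodule.mem_sup.1
        ((hn (n + m) (Nat.le_add_right _ _)).top_le (Submodule.mem_top (x := b)))
      have e : ∀ (j : ℕ) (v : K), ((ad ℂ K h ^ j) v).1 = (ad ℂ L h.1 ^ j) v.1 := fun j v => by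
        induction j with
        | zero => rfl
        | succ j ih => rw [pow_succ', pow_succ', Module.End.mul_apply, Module.End.mul_apply, ← ih]; rfl
      rw [AddMemClass.coe_add, map_add, k c ((mem_engel_iff ℂ h c).2 ⟨_, hc⟩), zero_add, e]
      exact kil_pow _ _ _ _ (by rw [← e, pow_add, Module.End.mul_apply, hm, map_zero]; rfl)
    refine Subtype.ext ((IsKilling.killingForm_nondegenerate ℂ L).1 _ fun b => ?_)
    obtain ⟨T, hT⟩ : ∃ T : Module.End ℂ L, ∀ z, T z = θ z - z :=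
      ⟨θ.toLinearEquiv.toLinearMap - 1, fun _ => rfl⟩
    have hT' : ∀ z, (T z).1 = (AdU s - 1) z.1 := fun z => by
      rw [hT, AddSubgroupClass.coe_sub, hθ]
      rfl
    obtain ⟨y, hy⟩ := ker_range T (fun y hy => Subtype.ext ((hT' y).trans
      (hs y.1 (by rw [← hT', ← hT', hy]; rfl)))) b
    have k2 := k1 ⟨b - T y, AdU_fix.1 (by rw [← hT', hy]; rfl)⟩
    have k3 := killingForm_of_equiv_apply θ a.1 y
    rw [show θ a.1 = a.1 from Subtype.ext ((hθ _).trans (sub_eq_zero.1 (AdU_fix.2 a.2)))] at k3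
    rwa [map_sub, hT, map_sub, k3, sub_self, sub_zero] at k2
  have ab : IsLieAbelian (engel ℂ h) :=
    LieModule.isLieAbelian_of_ker_traceForm_eq_bot ℂ (engel ℂ h) L (eq_bot_iff.2 fun a ha =>
      Subtype.ext (nd a.1 a.2 fun b hb => LinearMap.congr_fun (LinearMap.mem_ker.1 ha) ⟨b, hb⟩))
  have cm : ∀ a ∈ engel ℂ h, ∀ b ∈ engel ℂ h, Commute a.1.1 b.1.1 := fun a ha b hb =>
    sub_eq_zero.1 (congrArg (fun z : engel ℂ h => z.1.1.1)
      (trivial_lie_zero _ _ (⟨a, ha⟩ : engel ℂ h) (⟨b, hb⟩ : engel ℂ h)))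
  have mem : ∀ z : K, Commute h.1.1 z.1.1 → z ∈ engel ℂ h := fun z hz =>
    (mem_engel_iff ℂ h z).2 ⟨1, Subtype.ext (Subtype.ext (sub_eq_zero.2 hz))⟩
  refine ⟨((engel ℂ h).toSubmodule.map K.toSubmodule.subtype).map L.toSubmodule.subtype,
    Submodule.map_subtype_le _ _, h.1.1, ⟨_, ⟨h, self_mem_engel ℂ h, rfl⟩, rfl⟩, ?_, ?_, ?_,
    fun z hz h1 h2 => ⟨⟨z, hz⟩, ⟨⟨_, h1⟩, mem _ h2, rfl⟩, rfl⟩⟩
  · rintro _ ⟨_, ⟨a, -, rfl⟩, rfl⟩
    exact a.2
  · rintro _ ⟨_, ⟨a, ha, rfl⟩, rfl⟩ _ ⟨_, ⟨b, hb, rfl⟩, rfl⟩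
    exact cm a ha b hb
  · rintro _ ⟨_, ⟨a, ha, rfl⟩, rfl⟩
    obtain ⟨N, n1, n2, n3, n4⟩ := split_mem hL a.1.2
    have k := nd ⟨⟨N, n1⟩, n3 _ a.2⟩ (mem _ (n3 _ (cm h (self_mem_engel ℂ h) a ha))) fun b hb => by
      have k2 : ⁅(⟨N, n1⟩ : L), b.1⁆ = 0 := Subtype.ext (sub_eq_zero.2 (n3 _ (cm b hb a ha)).symm)
      have k3 := congrArg (ad ℂ L) k2
      rw [LieHom.map_lie, map_zero] at k3
      exact (LinearMap.isNilpotent_trace_of_isNilpotent (Commute.isNilpotent_mul_right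
        (sub_eq_zero.1 k3) (isNilpotent_ad_of_isNilpotent n2))).eq_zero
    rw [show N = 0 from congrArg (fun z : K => z.1.1) k, sub_zero] at n4
    exact n4

theorem tor_rank {L : LieSubalgebra ℂ (Mt r)} {Γ : Subgroup (Mt r)ˣ} (hΓ : Big L Γ)
    {s : (Mt r)ˣ} (hs : s ∈ Γ) (hf : Ss s) {h : Mt r} (hL : h ∈ L)
    (hc : Commute s.val h) (h2 : ∀ z, adL h (adL h z) = 0 → adL h z = 0)
    {T : Submodule ℂ (Mt r)} (hT : ∀ z ∈ L, Commute s.val z → Commute h z → z ∈ T) :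
    rank ℂ L ≤ Module.finrank ℂ T := by
  classical
  obtain ⟨τ, hτ⟩ := OP.common ((eig_fin (AdU s) (adL h)).toFinset.filter fun p => p.2 ≠ 0)
    (f := fun p (τ : ℂ) => p.1 * Complex.exp (τ * p.2) - 1) (fun _ _ => by fun_prop) fun p hp => by
      by_cases h1 : p.1 = 1
      · refine ⟨(p.2)⁻¹, ?_⟩
        rw [h1, one_mul, inv_mul_cancel₀ (Finset.mem_filter.1 hp).2, sub_ne_zero,
          ← Complex.ofReal_one, ← Complex.ofReal_exp, Ne, Complex.ofReal_inj]
        simp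
      · exact ⟨0, by simpa [sub_eq_zero] using h1⟩
  obtain ⟨E, e1, e2, e3⟩ := hΓ.rk _ (mul_mem hs (hΓ.le (eU_mem (L.smul_mem τ hL))))
  refine e2.trans (Submodule.finrank_mono fun z hz => ?_)
  set x := s * eU (τ • h) with hx
  have c1 : Commute s (eU (τ • h)) := Units.ext ((hc.smul_right τ).exp_right)
  have c2 : ∀ u : (Mt r)ˣ, Commute u.val h → Commute (AdU u) (adL h) := fun u hu =>
    LinearMap.ext fun z => by
      simp only [Module.End.mul_apply, adL_apply, AdU_apply, mul_sub, sub_mul, mul_assoc]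
      rw [← mul_assoc u.val h, hu.eq, hu.units_inv_left.eq, mul_assoc]
  have c3 := c2 s hc
  have c4 : Commute (AdU x) (adL h) :=
    c2 x (hc.mul_left ((Commute.refl h).smul_left τ).exp_left)
  have c5 : Commute (AdU x) (AdU s) := ((Commute.refl s).mul_left c1.symm).map AdU
  let N := L.toSubmodule ⊓ Module.End.maxGenEigenspace (AdU x) 1
  have n1 : ∀ z ∈ N, AdU s z ∈ N := fun z hz => ⟨AdU_apply s z ▸ hΓ.nor s hs z hz.1,
    Module.End.mapsTo_maxGenEigenspace_of_comm c5 1 hz.2⟩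
  have n2 : ∀ z ∈ N, adL h z ∈ N := fun z hz => ⟨L.lie_mem hL hz.1,
    Module.End.mapsTo_maxGenEigenspace_of_comm c4 1 hz.2⟩
  have n3 : ∀ v ∈ N, v ≠ 0 → ∀ p q : ℂ, AdU s v = p • v → adL h v = q • v → p = 1 ∧ q = 0 := by
    intro v hv v0 p q hp hq
    have k1 : AdU x v = (p * Complex.exp (τ * q)) • v := by
      have k2 := exp_eig (B := τ • h) (e := v) (c := τ * q) (by
        rw [smul_mul_assoc, mul_smul_comm, ← smul_sub, ← adL_apply, hq, smul_smul])
      rw [hx, map_mul, Module.End.mul_apply, AdU_apply (eU _), show (eU (τ • h)).val * v = _ from k2,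
        smul_mul_assoc, show v * exp (τ • h) = v * (eU (τ • h)).val from rfl,
        Units.mul_inv_cancel_right, map_smul, hp, smul_smul, mul_comm]
    have k2 : p * Complex.exp (τ * q) = 1 := by
      by_contra k3
      exact v0 (Submodule.disjoint_def.1 (Module.End.disjoint_genEigenspace (AdU x) k3 1 ⊤) v
        (Module.End.mem_eigenspace_iff.2 k1) hv.2)
    have k3 : q = 0 := by
      by_contra k3
      exact hτ (p, q) (Finset.mem_filter.2 ⟨(Set.Finite.mem_toFinset _).2 ⟨v, v0, hp, hq⟩, k3⟩)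
        (sub_eq_zero.2 k2)
    exact ⟨by simpa [k3] using k2, k3⟩
  have hz' : z ∈ N := ⟨e1 hz, (Module.End.mem_maxGenEigenspace _ _ _).2 (by
    simpa only [one_smul] using e3 z hz)⟩
  refine hT z (e1 hz) (AdU_fix.1 (map_bot c3 ((Commute.refl _).sub_right (Commute.one_right _))
    (c3.symm.sub_right (Commute.one_right _)) n1 n2 (fun z hz => N.sub_mem (n1 z hz) hz)
    hf (fun v hv v0 p q hp hq => ?_) z hz')) (sub_eq_zero.1 (map_bot c3 c3
      (Commute.refl _) n1 n2 n2 h2 (fun v hv v0 p q hp hq => ?_) z hz'))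
  · rw [LinearMap.sub_apply, hp, (n3 v hv v0 p q hp hq).1, one_smul, Module.End.one_apply, sub_self]
  · rw [hq, (n3 v hv v0 p q hp hq).2, zero_smul]

theorem exists_cartan2 [NeZero r] (L : LieSubalgebra ℂ (Mt r)) (hL : LieW L.toSubmodule) :
    ∃ H : LieSubalgebra ℂ L, H.IsCartanSubalgebra ∧ ∀ Γ, Big L Γ → ∀ s ∈ Γ, Ss s →
      ∃ g ∈ GW L.toSubmodule, ∀ B : H, Commute (g * s * g⁻¹).val B.1.1 := by
  have := killing hL
  obtain ⟨X, hX⟩ := exists_isRegular ℂ L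
  have hC : (engel ℂ X).IsCartanSubalgebra :=
    ⟨isNilpotent_of_forall_le_engel _ (engel_le hX), normalizer_engel _ _⟩
  refine ⟨engel ℂ X, hC, fun Γ hΓ s hs hf => ?_⟩
  obtain ⟨T, t1, h, t2, t3, t4, t5, t6⟩ := exists_tor hL hf (hΓ.nor s hs)
  have t7 := tor_rank hΓ hs hf (t1 t2) (t3 h t2) (t5 h t2) t6
  obtain ⟨S, s1, s2⟩ := gen_elt T t4 t5
  have k0 := t5 S s1
  lift S to L using t1 s1
  obtain ⟨g, hg, H, hH, e⟩ := exists_reg hX S
  obtain ⟨g', hg', k⟩ := into_reg e hX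
  obtain ⟨n, hn⟩ := (mem_engel_iff ℂ _ _).1 hH
  have k1 : ∀ (n : ℕ) (H : L), (ad ℂ L S ^ n) H = 0 → ad ℂ L S H = 0 := fun n => by
    induction n with
    | zero => exact fun H hn => by rw [show H = 0 from hn, map_zero]
    | succ n ih => exact fun H hn => Subtype.ext (k0 _ (congrArg Subtype.val (ih _ hn)))
  have k2 : S ∈ engel ℂ H := (mem_engel_iff ℂ _ _).2 ⟨1, by
    rw [pow_one, ad_apply, ← lie_skew, ← ad_apply ℂ, k1 n H hn, neg_zero]⟩
  obtain ⟨u, hu, k3⟩ : ∃ u, ∃ hu : u ∈ GW L.toSubmodule, cjH hu S ∈ engel ℂ X := by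
    refine ⟨_, mul_mem hg' hg, ?_⟩
    have := k _ (cjH_engel hg k2)
    rwa [show cjH hg' (cjH hg S) = cjH (mul_mem hg' hg) S from
      Subtype.ext (by simp [cjH, mul_assoc])] at this
  have k4 : (T.comap L.toSubmodule.subtype).map (cjH hu) = (engel ℂ X).toSubmodule := by
    refine Submodule.eq_of_le_of_finrank_le ?_ ?_
    · rintro _ ⟨y, hy, rfl⟩
      change _ ∈ engel ℂ X
      rw [← normalizer_engel, mem_normalizer_iff]
      intro B hB
      have m1 : ⁅cjH hu S, B⁆ = 0 :=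
        congrArg Subtype.val (trivial_lie_zero _ _ (⟨_, k3⟩ : engel ℂ X) (⟨B, hB⟩ : engel ℂ X))
      have m2 := congrArg (cjH (inv_mem hu)) m1
      rw [cjH_lie, cjH_inv, map_zero] at m2
      have m3 : ⁅y, cjH (inv_mem hu) B⁆ = 0 := Subtype.ext (s2 _ (congrArg Subtype.val m2) _ hy)
      have m4 := congrArg (cjH hu) m3
      rw [cjH_lie, map_zero, show cjH hu (cjH (inv_mem hu) B) = B from
        Subtype.ext (by simp [cjH, mul_assoc])] at m4
      rw [m4]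
      exact zero_mem _
    · rw [← LinearEquiv.finrank_eq (Submodule.equivMapOfInjective _
        (Function.LeftInverse.injective (cjH_inv hu)) _)]
      exact (((isRegular_iff_finrank_engel_eq_rank ℂ X).1 hX).le.trans t7).trans
        (LinearEquiv.finrank_eq (Submodule.comapSubtypeEquivOfLe t1)).ge
  refine ⟨u, hu, fun B => ?_⟩
  obtain ⟨y, hy, e⟩ := k4.ge B.2
  rw [← e]
  change (u * s * u⁻¹).val * (u.val * y.1 * (u⁻¹).val) = u.val * y.1 * (u⁻¹).val * (u * s * u⁻¹).val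
  simp only [Units.val_mul, mul_assoc, Units.inv_mul_cancel_left]
  rw [← mul_assoc s.val, (t3 y.1 hy).eq, mul_assoc]

end Pool.Agent.GR.OK
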